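import Pool.Agent.Y736.HG9

/-! # Collet-Eckmann parameters with slow recurrence: the escape rate (helper77) -/

set_option autoImplicit false

namespace Pool.Agent.K6.H77.LD

open Complex Metric Set Filter Topology MeasureTheory Pool.Agent.H713R2
open N62a1eb23 Pool.Agent.Y298.CA Pool.Agent.Y298.SH.CD
open Pool.Agent.H712R2 (P)
open Pool.Agent.Y736.HG (pow_eq' rate_log)

variable {d : ℕ} {C₁ lam : ℝ} {c₀ : ℂ}

/-- The orbit of the critical value comes close to the critical point only slowly. -/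
def Slow (d : ℕ) (c : ℂ) : Prop :=
  ∀ ε : ℝ, 0 < ε → ∃ C : ℝ, 1 ≤ C ∧ ∀ n : ℕ, 1 ≤ C * Real.exp (ε * n) * ‖zz d c n‖

/-- The largest derivative at the critical value up to the time `n`. -/
noncomputable def Mx (d : ℕ) (c : ℂ) (n : ℕ) : ℝ :=
  (Finset.range (n + 1)).sup' ⟨0, by simp⟩ (Pd d c)

theorem Pd_le_Mx {c : ℂ} {j n : ℕ} (h : j ≤ n) : Pd d c j ≤ Mx d c n :=
  Finset.le_sup' (Pd d c) (Finset.mem_range.2 (by omega))

theorem exists_Mx (d : ℕ) (c : ℂ) (n : ℕ) : ∃ j ≤ n, Mx d c n = Pd d c j := by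
  obtain ⟨j, hj, h⟩ := Finset.exists_mem_eq_sup' (s := Finset.range (n + 1)) ⟨0, by simp⟩ (Pd d c)
  exact ⟨j, by have := Finset.mem_range.1 hj; omega, h⟩

/-- The escape rate at distance at most `s` from `c₀` is at most `S`. -/
def UB (d : ℕ) (c₀ : ℂ) (s S : ℝ) : Prop :=
  ∀ ψ : ℂ → ℂ, IsExteriorMap (multibrotSet d) ψ → ∀ w : ℂ, 1 < ‖w‖ → ‖ψ w - c₀‖ ≤ s →
    Real.log ‖w‖ ≤ S

theorem UB.mono {s S S' : ℝ} (h : UB d c₀ s S) (hS : S ≤ S') : UB d c₀ s S' :=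
  fun ψ hψ w hw hs => (h ψ hψ w hw hs).trans hS

/-- **Upper bound at one scale.** -/
theorem up_core (hd2 : 2 ≤ d) (hM : c₀ ∈ multibrotSet d) (hc : CEp d C₁ lam c₀) (hs : Slow d c₀)
    {ε : ℝ} (hε : 0 < ε) : ∃ D : ℝ, 1 ≤ D ∧ ∀ (s : ℝ) (k : ℕ), 0 < s → s ≤ 1 →
      D * Real.exp (2 * ε * k) * s * Mx d c₀ k ≤ 1 → UB d c₀ s (Real.log 4 / (d : ℝ) ^ k) := by
  obtain ⟨C, hC, H⟩ := hs ε hε
  obtain ⟨B, Ca, hPC⟩ := Pool.Agent.Y434.CA.pa d C₁ lam (Real.exp ε) hd2 hc.C1 hc.lam1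
    (by rw [← Real.exp_zero]; exact Real.exp_lt_exp.2 hε)
  have hCa1 := hPC.Ca1
  have hCaB := hPC.CaB
  have hB1 : 1 ≤ B := hCa1.trans hCaB
  have hC0 : 0 < C := by linarith
  have hBC : 1 ≤ B * C := by nlinarith
  refine ⟨B * C, hBC, fun s k hs0 hs1 hk ψ hψ w hw hws => ?_⟩
  have hMx0 : 0 < Mx d c₀ k := (hc.Pd_pos 0).trans_le (Pd_le_Mx (Nat.zero_le k))
  have hpass : ∀ j < k, B * Real.exp ε ^ j * s * Pd d c₀ j ≤ ‖zz d c₀ j‖ := by
    intro j hj
    have h3 := H j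
    have h4 : 0 < Real.exp (ε * j) := Real.exp_pos _
    have hPj := (hc.Pd_pos j).le
    have h5 : C * Real.exp (ε * j) * (B * Real.exp ε ^ j * s * Pd d c₀ j) ≤ 1 := by
      have e1 : Real.exp ε ^ j = Real.exp (ε * j) := by
        rw [← Real.exp_nat_mul]
        congr 1
        ring
      rw [e1]
      have e2 : Real.exp (ε * j) * Real.exp (ε * j) ≤ Real.exp (2 * ε * k) := by
        rw [← Real.exp_add]
        apply Real.exp_le_exp.2
        have : (j : ℝ) ≤ k := by exact_mod_cast hj.le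
        nlinarith
      calc C * Real.exp (ε * j) * (B * Real.exp (ε * j) * s * Pd d c₀ j)
          = B * C * (Real.exp (ε * j) * Real.exp (ε * j)) * s * Pd d c₀ j := by ring
        _ ≤ B * C * Real.exp (2 * ε * k) * s * Mx d c₀ k := by
            gcongr
            exact Pd_le_Mx hj.le
        _ ≤ 1 := hk
    exact le_of_mul_le_mul_left (h5.trans h3) (by positivity)
  have hk3 := (hPC.pass c₀ hc (ψ w) s k hs0 hws hpass (ψ w) (mem_ball_self hs0) k le_rfl).1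
  have hk4 : Ca * s * Pd d c₀ k ≤ 1 := by
    have hPk := (hc.Pd_pos k).le
    have he : 1 ≤ Real.exp (2 * ε * k) := Real.one_le_exp (by positivity)
    calc Ca * s * Pd d c₀ k ≤ (B * C * Real.exp (2 * ε * k)) * s * Mx d c₀ k := by
          have h1 : Ca ≤ B * C * Real.exp (2 * ε * k) := by
            calc Ca ≤ B := hCaB
              _ = B * 1 * 1 := by ring
              _ ≤ B * C * Real.exp (2 * ε * k) := by gcongr
          gcongr
          exact Pd_le_Mx le_rfl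
      _ ≤ 1 := hk
  exact rate_log hd2 hM hψ hw (hws.trans hs1) (n := k) (by
    have e1 : P d (k + 1) (ψ w) = (Pool.Agent.TH279.MD.f d (ψ w))^[k] (ψ w) := by
      rw [P_succ_eq hd2]
    have e2 : P d (k + 1) c₀ = zz d c₀ k := by
      rw [P_succ_eq hd2]
      rfl
    rw [e1, e2]
    exact hk3.trans hk4)

/-- **Upper bound at all scales.** -/
theorem up_all (hd2 : 2 ≤ d) (hM : c₀ ∈ multibrotSet d) (hc : CEp d C₁ lam c₀) (hs : Slow d c₀)
    {β C' : ℝ} (hβ : 0 < β) (hC' : 1 ≤ C') (hMx : ∀ n : ℕ, Mx d c₀ n ≤ C' * Real.exp (β * n))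
    {κ : ℝ} (hκ0 : 0 < κ) (hκ : κ < Real.log d / β) :
    ∃ K s₀ : ℝ, 0 < K ∧ 0 < s₀ ∧ ∀ s : ℝ, 0 < s → s ≤ s₀ → UB d c₀ s (K * s ^ κ) := by
  have hdR : (1 : ℝ) < d := by exact_mod_cast (by omega : 1 < d)
  have hlog2 : 0 < Real.log d := Real.log_pos hdR
  obtain ⟨ε, hε⟩ : ∃ ε, ε = (Real.log d / κ - β) / 2 := ⟨_, rfl⟩
  have hε0 : 0 < ε := by
    rw [hε]
    have : β < Real.log d / κ := by
      rw [lt_div_iff₀ hκ0]
      rw [lt_div_iff₀ hβ] at hκ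
      linarith
    linarith
  have hεχ : β + 2 * ε = Real.log d / κ := by rw [hε]; ring
  obtain ⟨D, hD1, hD⟩ := up_core hd2 hM hc hs hε0
  obtain ⟨L, hL⟩ : ∃ L, L = Real.exp (β + 2 * ε) := ⟨_, rfl⟩
  have hL1 : 1 < L := by
    rw [hL, ← Real.exp_zero]
    exact Real.exp_lt_exp.2 (by linarith)
  have hlogL : Real.log L = β + 2 * ε := by rw [hL, Real.log_exp]
  have hκL : κ = Real.log d / Real.log L := by
    rw [hlogL, hεχ]
    field_simp
  have hlog4 : 0 < Real.log 4 := Real.log_pos (by norm_num)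
  have hDC : 1 ≤ D * C' := by nlinarith
  have hDC0 : 0 < D * C' := by linarith
  refine ⟨Real.log 4 * (d * (D * C') ^ κ), 1 / (D * C'), by positivity, by positivity,
    fun s hs0 hs1 => ?_⟩
  have hs' : s ≤ 1 := hs1.trans (by rw [div_le_one hDC0]; exact hDC)
  obtain ⟨k, hk1, hk2⟩ := exists_nat_pow_near (x := 1 / (D * C' * s)) (y := L) (by
    rw [le_div_iff₀ (by positivity)]
    rw [le_div_iff₀ (by positivity)] at hs1
    linarith) hL1
  rw [le_div_iff₀ (by positivity)] at hk1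
  rw [div_lt_iff₀ (by positivity)] at hk2
  have h1 := hD s k hs0 hs' (by
    calc D * Real.exp (2 * ε * k) * s * Mx d c₀ k
        ≤ D * Real.exp (2 * ε * k) * s * (C' * Real.exp (β * k)) := by
          have := hMx k
          gcongr
      _ = L ^ k * (D * C' * s) := by
          rw [hL, ← Real.exp_nat_mul]
          have e : Real.exp (k * (β + 2 * ε)) = Real.exp (2 * ε * k) * Real.exp (β * k) := by
            rw [← Real.exp_add]
            congr 1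
            ring
          rw [e]
          ring
      _ ≤ 1 := hk1)
  refine h1.mono ?_
  have h9 : 1 ≤ (d : ℝ) ^ (k + 1) * (D * C' * s) ^ κ := by
    rw [pow_eq' hd2 hL1 hκL, ← Real.mul_rpow (by positivity) (by positivity)]
    exact Real.one_le_rpow hk2.le hκ0.le
  rw [div_le_iff₀ (by positivity)]
  calc Real.log 4 = Real.log 4 * 1 := (mul_one _).symm
    _ ≤ Real.log 4 * ((d : ℝ) ^ (k + 1) * (D * C' * s) ^ κ) := by gcongr
    _ = _ := by
        rw [pow_succ, Real.mul_rpow (by positivity) hs0.le]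
        ring

theorem exp_seq_tendsto {a B : ℝ} (ha : 0 < a) (hB : 0 < B) :
    Tendsto (fun n : ℕ => B * Real.exp (-(a * n))) atTop (𝓝[>] 0) := by
  rw [tendsto_nhdsWithin_iff]
  refine ⟨?_, Eventually.of_forall fun n => ?_⟩
  · have h1 : Tendsto (fun n : ℕ => a * (n : ℝ)) atTop atTop :=
      Tendsto.const_mul_atTop ha tendsto_natCast_atTop_atTop
    have h2 := (Real.tendsto_exp_neg_atTop_nhds_zero.comp h1).const_mul B
    rw [mul_zero] at h2
    exact h2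
  · show 0 < B * Real.exp (-(a * n))
    positivity

/-- **Upper bound at infinitely many scales.** -/
theorem up_freq (hd2 : 2 ≤ d) (hM : c₀ ∈ multibrotSet d) (hc : CEp d C₁ lam c₀) (hs : Slow d c₀)
    {β : ℝ} (hβ : 0 < β) (hMx : ∃ᶠ n : ℕ in atTop, Mx d c₀ n ≤ Real.exp (β * n))
    {κ : ℝ} (hκ0 : 0 < κ) (hκ : κ < Real.log d / β) :
    ∃ᶠ s : ℝ in 𝓝[>] 0, UB d c₀ s (s ^ κ) := by
  have hdR : (1 : ℝ) < d := by exact_mod_cast (by omega : 1 < d)
  have hlog2 : 0 < Real.log d := Real.log_pos hdR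
  obtain ⟨ε, hε⟩ : ∃ ε, ε = (Real.log d / κ - β) / 4 := ⟨_, rfl⟩
  have hε0 : 0 < ε := by
    rw [hε]
    have : β < Real.log d / κ := by
      rw [lt_div_iff₀ hκ0]
      rw [lt_div_iff₀ hβ] at hκ
      linarith
    linarith
  have hεχ : β + 4 * ε = Real.log d / κ := by rw [hε]; ring
  obtain ⟨D, hD1, hD⟩ := up_core hd2 hM hc hs hε0
  have ha : 0 < β + 3 * ε := by linarith
  have hlim := exp_seq_tendsto ha one_pos
  refine hlim.frequently ?_
  -- eventual conditions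
  have h1 : ∀ᶠ n : ℕ in atTop, D * Real.exp (-(ε * n)) ≤ 1 := by
    have h2 := (exp_seq_tendsto hε0 (by linarith : (0 : ℝ) < D)).mono_right nhdsWithin_le_nhds
    exact h2.eventually (ge_mem_nhds zero_lt_one)
  have h2 : ∀ᶠ n : ℕ in atTop, Real.log 4 * Real.exp (-((ε * κ) * n)) ≤ 1 := by
    have h3 := (exp_seq_tendsto (a := ε * κ) (by positivity)
      (Real.log_pos (by norm_num : (1 : ℝ) < 4))).mono_right nhdsWithin_le_nhds
    exact h3.eventually (ge_mem_nhds zero_lt_one)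
  refine (hMx.and_eventually (h1.and h2)).mono fun n hn => ?_
  obtain ⟨hn1, hn2, hn3⟩ := hn
  obtain ⟨s, hs⟩ : ∃ s, s = 1 * Real.exp (-((β + 3 * ε) * n)) := ⟨_, rfl⟩
  rw [← hs]
  have hs0 : 0 < s := by rw [hs]; positivity
  have hs1 : s ≤ 1 := by
    rw [hs, one_mul]
    apply Real.exp_le_one_iff.2
    have : 0 ≤ (β + 3 * ε) * n := by positivity
    linarith
  have h3 := hD s n hs0 hs1 (by
    calc D * Real.exp (2 * ε * n) * s * Mx d c₀ n
        ≤ D * Real.exp (2 * ε * n) * s * Real.exp (β * n) := by gcongr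
      _ = D * (Real.exp (2 * ε * n) * (Real.exp (-((β + 3 * ε) * n))) * Real.exp (β * n)) := by
          rw [hs]
          ring
      _ = D * Real.exp (-(ε * n)) := by
          rw [← Real.exp_add, ← Real.exp_add]
          congr 2
          ring
      _ ≤ 1 := hn2)
  refine h3.mono ?_
  have h4 : s ^ κ = Real.exp (-((β + 3 * ε) * κ * n)) := by
    rw [hs, one_mul, ← Real.exp_mul]
    congr 1
    ring
  have h5 : (d : ℝ) ^ n = Real.exp ((β + 4 * ε) * κ * n) := by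
    rw [hεχ, div_mul_cancel₀ _ hκ0.ne', ← Real.exp_log (by linarith : (0 : ℝ) < d),
      ← Real.exp_nat_mul, Real.log_exp]
    congr 1
    ring
  rw [h4, h5, div_le_iff₀ (Real.exp_pos _), ← Real.exp_add]
  have h6 : -((β + 3 * ε) * κ * n) + (β + 4 * ε) * κ * n = ε * κ * n := by ring
  rw [h6]
  have h7 : Real.exp (-(ε * κ * n)) * Real.exp (ε * κ * n) = 1 := by
    rw [← Real.exp_add, neg_add_cancel, Real.exp_zero]
  calc Real.log 4 = (Real.log 4 * Real.exp (-(ε * κ * n))) * Real.exp (ε * κ * n) := by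
        rw [mul_assoc, h7, mul_one]
    _ ≤ 1 * Real.exp (ε * κ * n) := by gcongr
    _ = _ := one_mul _

/-- The escape rate at distance at most `ρ` is at least `t` by Jensen's formula. -/
def LB (d : ℕ) (c₀ : ℂ) (ρ t : ℝ) : Prop :=
  ∃ m : ℕ, deriv (P d (m + 1)) c₀ ≠ 0 ∧
    t ≤ (Real.log (ρ * ‖deriv (P d (m + 1)) c₀‖) - Real.log 4) / (d : ℝ) ^ m

theorem LB.mono {ρ t t' : ℝ} (h : LB d c₀ ρ t) (ht : t' ≤ t) : LB d c₀ ρ t' := by
  obtain ⟨m, h1, h2⟩ := h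
  exact ⟨m, h1, ht.trans h2⟩

/-- **Lower bound at one scale.** -/
theorem low_core (hd2 : 2 ≤ d) (hc : CEp d C₁ lam c₀) : ∃ B ρ₀ : ℝ, 0 < B ∧ 0 < ρ₀ ∧
    ∀ ρ : ℝ, 0 < ρ → ρ ≤ ρ₀ → ∀ n : ℕ, B ≤ ρ * Mx d c₀ n → LB d c₀ ρ (1 / (d : ℝ) ^ n) := by
  have hdR : (1 : ℝ) < d := by exact_mod_cast (by omega : 1 < d)
  obtain ⟨κ₀, ε', J, hκ₀, hε', hgrow⟩ := hc.grow
  obtain ⟨B, hB⟩ : ∃ B, B = 4 * Real.exp 1 / κ₀ := ⟨_, rfl⟩
  have hB0 : 0 < B := by rw [hB]; positivity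
  have hM0 : 0 < Mx d c₀ J := (hc.Pd_pos 0).trans_le (Pd_le_Mx (Nat.zero_le J))
  refine ⟨B, B / (2 * Mx d c₀ J), hB0, by positivity, fun ρ hρ0 hρ n hn => ?_⟩
  obtain ⟨j, hj, hjM⟩ := exists_Mx d c₀ n
  rw [hjM] at hn
  have hjJ : J ≤ j := by
    by_contra hcon
    push Not at hcon
    have h1 : Pd d c₀ j ≤ Mx d c₀ J := Pd_le_Mx hcon.le
    rw [le_div_iff₀ (by positivity)] at hρ
    have h2 : ρ * Pd d c₀ j ≤ ρ * Mx d c₀ J := by gcongr
    nlinarith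
  have hg := hgrow c₀ hc c₀ (by rw [sub_self, norm_zero]; exact hε'.le) j hjJ
    (fun i _ => by
      show Pd d c₀ i / 2 ≤ Pd d c₀ i
      have := (hc.Pd_pos i).le
      linarith)
  have hP := hc.Pd_pos j
  have hd0 : 0 < ‖deriv (P d (j + 1)) c₀‖ := lt_of_lt_of_le (by positivity) hg
  refine ⟨j, norm_pos_iff.1 hd0, ?_⟩
  have h1 : 4 * Real.exp 1 ≤ ρ * ‖deriv (P d (j + 1)) c₀‖ := by
    rw [hB, div_le_iff₀ hκ₀] at hn
    calc 4 * Real.exp 1 ≤ ρ * Pd d c₀ j * κ₀ := hn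
      _ = ρ * (κ₀ * Pd d c₀ j) := by ring
      _ ≤ _ := by gcongr
  have h2 : 1 ≤ Real.log (ρ * ‖deriv (P d (j + 1)) c₀‖) - Real.log 4 := by
    have h3 := Real.log_le_log (by positivity) h1
    rw [Real.log_mul (by norm_num) (Real.exp_pos 1).ne', Real.log_exp] at h3
    linarith
  calc 1 / (d : ℝ) ^ n ≤ 1 / (d : ℝ) ^ j :=
        one_div_le_one_div_of_le (by positivity) (pow_le_pow_right₀ hdR.le hj)
    _ ≤ _ := by gcongr

/-- **Lower bound at all scales.** -/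
theorem low_all (hd2 : 2 ≤ d) (hc : CEp d C₁ lam c₀) {α C' : ℝ} (hα : 0 < α) (hC' : 1 ≤ C')
    (hMx : ∀ n : ℕ, Real.exp (α * n) ≤ C' * Mx d c₀ n) :
    ∃ k ρ₀ : ℝ, 0 < k ∧ 0 < ρ₀ ∧ ∀ ρ : ℝ, 0 < ρ → ρ ≤ ρ₀ →
      LB d c₀ ρ (k * ρ ^ (Real.log d / α)) := by
  have hdR : (1 : ℝ) < d := by exact_mod_cast (by omega : 1 < d)
  have hlog2 : 0 < Real.log d := Real.log_pos hdR
  obtain ⟨B, ρ₀, hB, hρ₀, H⟩ := low_core hd2 hc
  obtain ⟨L, hL⟩ : ∃ L, L = Real.exp α := ⟨_, rfl⟩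
  have hlogL : Real.log L = α := by rw [hL, Real.log_exp]
  have hL1 : 1 < L := by
    rw [hL, ← Real.exp_zero]
    exact Real.exp_lt_exp.2 hα
  obtain ⟨κ, hκ⟩ : ∃ κ, κ = Real.log d / α := ⟨_, rfl⟩
  have hκ0 : 0 < κ := by rw [hκ]; positivity
  have hκL : κ = Real.log d / Real.log L := by rw [hlogL, hκ]
  have hC0 : 0 < C' := by linarith
  refine ⟨1 / (d * (C' * B) ^ κ), min ρ₀ (C' * B), by positivity, by positivity,
    fun ρ hρ0 hρ => ?_⟩
  rw [← hκ]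
  obtain ⟨n, hn1, hn2⟩ := exists_nat_pow_near (x := C' * B / ρ) (y := L) (by
    rw [le_div_iff₀ hρ0]
    have := hρ.trans (min_le_right _ _)
    linarith) hL1
  have h1 := H ρ hρ0 (hρ.trans (min_le_left _ _)) (n + 1) (by
    have h2 := hMx (n + 1)
    have e : Real.exp (α * (n + 1 : ℕ)) = L ^ (n + 1) := by
      rw [hL, ← Real.exp_nat_mul]
      congr 1
      ring
    rw [e] at h2
    have h3 := hn2.trans_le h2
    rw [div_lt_iff₀ hρ0] at h3
    have h4 : C' * B ≤ C' * (ρ * Mx d c₀ (n + 1)) := by linarith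
    exact le_of_mul_le_mul_left h4 hC0)
  refine h1.mono ?_
  have h3 : (d : ℝ) ^ (n + 1) ≤ d * (C' * B / ρ) ^ κ := by
    rw [pow_succ, mul_comm, pow_eq' hd2 hL1 hκL n]
    gcongr
  calc 1 / (d * (C' * B) ^ κ) * ρ ^ κ = 1 / (d * (C' * B / ρ) ^ κ) := by
        rw [Real.div_rpow (by positivity) hρ0.le]
        have := Real.rpow_pos_of_pos hρ0 κ
        field_simp
    _ ≤ 1 / (d : ℝ) ^ (n + 1) := one_div_le_one_div_of_le (by positivity) h3

/-- **Lower bound at infinitely many scales.** -/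
theorem low_freq (hd2 : 2 ≤ d) (hc : CEp d C₁ lam c₀) {α : ℝ} (hα : 0 < α)
    (hMx : ∃ᶠ n : ℕ in atTop, Real.exp (α * n) ≤ Mx d c₀ n) {κ : ℝ} (hκ : Real.log d / α < κ) :
    ∃ᶠ ρ : ℝ in 𝓝[>] 0, LB d c₀ ρ (ρ ^ κ) := by
  have hdR : (1 : ℝ) < d := by exact_mod_cast (by omega : 1 < d)
  have hlog2 : 0 < Real.log d := Real.log_pos hdR
  obtain ⟨B, ρ₀, hB, hρ₀, H⟩ := low_core hd2 hc
  have hlim := exp_seq_tendsto hα hB
  refine hlim.frequently ?_
  obtain ⟨κ', hκ'⟩ : ∃ κ', κ' = Real.log d / α := ⟨_, rfl⟩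
  rw [← hκ'] at hκ
  have h1 := hlim.eventually (Pool.Agent.Y736.HD.ev_lt hρ₀)
  have h2 := hlim.eventually (Pool.Agent.Y736.HD.ev_small (C := B ^ κ') (sub_pos.2 hκ))
  refine (hMx.and_eventually (h1.and h2)).mono fun n hn => ?_
  obtain ⟨hn1, hn2, hn3⟩ := hn
  obtain ⟨ρ, hρ⟩ : ∃ ρ, ρ = B * Real.exp (-(α * n)) := ⟨_, rfl⟩
  rw [← hρ] at hn2 hn3 ⊢
  have hρ0 : 0 < ρ := by rw [hρ]; positivity
  have h3 := H ρ hρ0 hn2.le n (by
    calc B = B * (Real.exp (-(α * n)) * Real.exp (α * n)) := by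
          rw [← Real.exp_add, neg_add_cancel, Real.exp_zero, mul_one]
      _ = ρ * Real.exp (α * n) := by rw [hρ]; ring
      _ ≤ ρ * Mx d c₀ n := by gcongr)
  refine h3.mono ?_
  have h5 : 1 / (d : ℝ) ^ n = (ρ / B) ^ κ' := by
    have e1 : ρ / B = Real.exp (-(α * n)) := by
      rw [hρ]
      field_simp
    rw [e1, ← Real.exp_mul, hκ', ← Real.exp_log (by linarith : (0 : ℝ) < d), ← Real.exp_nat_mul,
      Real.log_exp, one_div, ← Real.exp_neg]
    congr 1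
    field_simp
  rw [h5, Real.div_rpow hρ0.le hB.le, le_div_iff₀ (Real.rpow_pos_of_pos hB _)]
  calc ρ ^ κ * B ^ κ' = (B ^ κ' * ρ ^ (κ - κ')) * ρ ^ κ' := by
        rw [mul_assoc, ← Real.rpow_add hρ0, sub_add_cancel]
        ring
    _ ≤ 1 * ρ ^ κ' := by gcongr
    _ = _ := one_mul _

end Pool.Agent.K6.H77.LD
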