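import Pool.Agent.K6.H77.LD.Core
import Pool.Agent.Y932.CA.ME

/-! # The derivative along the orbit of the critical value does not drop (helper77) -/

set_option autoImplicit false

namespace Pool.Agent.K6.H77.LD

open Complex Metric Set Filter Topology MeasureTheory Pool.Agent.H713R2
open N62a1eb23 Pool.Agent.Y298.CA Pool.Agent.Y298.SH.CD Pool.Agent.Y298.SH
open Pool.Agent.TH279.MD (f)

variable {d : ℕ} {C₁ lam : ℝ} {c₀ : ℂ}

theorem iter_zz (d : ℕ) (c : ℂ) (i j : ℕ) : (f d c)^[i] (zz d c j) = zz d c (j + i) := by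
  rw [zz_add, add_comm]

theorem Pd_split (d : ℕ) (c : ℂ) (j m : ℕ) :
    Pd d c (j + m) = ‖deriv ((f d c)^[m]) (zz d c j)‖ * Pd d c j := by
  rw [add_comm, Pd_add]

/-- free passage ending near the critical point -/
theorem free_return (hc : CEp d C₁ lam c₀) : ∃ ρ₀ G : ℝ, 0 < ρ₀ ∧ 1 ≤ G ∧ ∀ δ : ℝ, 0 < δ →
    2 * δ ≤ ρ₀ → ∀ j m : ℕ, (∀ i < m, 2 * δ ≤ ‖zz d c₀ (j + i)‖) → ‖zz d c₀ (j + m)‖ ≤ 2 * δ →
      Pd d c₀ j ≤ G * Pd d c₀ (j + m) := by
  obtain ⟨ρ₀, Γ, hρ₀, hΓ, H⟩ := hc.psi_sum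
  refine ⟨ρ₀, Real.sqrt (max Γ 1), hρ₀, ?_, fun δ hδ hδ2 j m hj hm => ?_⟩
  · exact Real.one_le_sqrt.2 (le_max_right _ _)
  have h1 := H δ hδ hδ2 (m + 1) (zz d c₀ (j + m)) hm
  have h2 : psi d δ c₀ m (zz d c₀ (j + m)) ≤ Γ :=
    (Finset.single_le_sum (f := fun i => psi d δ c₀ i (zz d c₀ (j + m)))
      (fun i _ => psi_nonneg hδ c₀ i _) (Finset.self_mem_range_succ m)).trans h1
  have h3 : zz d c₀ j ∈ VV d δ c₀ m := fun i hi => by
    rw [iter_zz]
    exact hj i hi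
  have h4 := Pool.Agent.Y932.CA.one d δ c₀ m (zz d c₀ j) hc.hd hδ h3
  rw [iter_zz] at h4
  set X := ‖deriv ((f d c₀)^[m]) (zz d c₀ j)‖ with hX
  have hX0 : 0 ≤ X := norm_nonneg _
  have h5 : 1 ≤ (max Γ 1) * X ^ 2 := h4.trans
    (mul_le_mul_of_nonneg_right (h2.trans (le_max_left _ _)) (by positivity))
  have h6 : 1 ≤ Real.sqrt (max Γ 1) * X := by
    calc (1 : ℝ) = Real.sqrt 1 := Real.sqrt_one.symm
      _ ≤ Real.sqrt ((max Γ 1) * X ^ 2) := Real.sqrt_le_sqrt h5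
      _ = Real.sqrt (max Γ 1) * X := by
          rw [Real.sqrt_mul (le_max_of_le_right zero_le_one), Real.sqrt_sq hX0]
  rw [Pd_split]
  have hPj := (hc.Pd_pos j).le
  calc Pd d c₀ j = 1 * Pd d c₀ j := (one_mul _).symm
    _ ≤ (Real.sqrt (max Γ 1) * X) * Pd d c₀ j := mul_le_mul_of_nonneg_right h6 hPj
    _ = _ := by ring

/-- free passage -/
theorem free (hc : CEp d C₁ lam c₀) {δ : ℝ} (hδ : 0 < δ) : ∃ A : ℝ, 1 ≤ A ∧
    ∀ j m : ℕ, (∀ i < m, 2 * δ ≤ ‖zz d c₀ (j + i)‖) → Pd d c₀ j ≤ A * Pd d c₀ (j + m) := by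
  have hd2 := hc.hd
  obtain ⟨N, hN1, hN⟩ := hc.psi_small hδ (r := 4) le_rfl (ε := 1) one_pos
  obtain ⟨q, hq⟩ : ∃ q : ℝ, q = max 1 (1 / (d * (2 * δ) ^ (d - 1))) := ⟨_, rfl⟩
  have hq1 : 1 ≤ q := by rw [hq]; exact le_max_left _ _
  have hdR : (0 : ℝ) < d := by exact_mod_cast (by omega : 0 < d)
  -- one step
  have hstep : ∀ i, 2 * δ ≤ ‖zz d c₀ i‖ → Pd d c₀ i ≤ q * Pd d c₀ (i + 1) := by
    intro i hi
    rw [Pd_succ]
    have h1 : (2 * δ) ^ (d - 1) ≤ ‖zz d c₀ i‖ ^ (d - 1) := pow_le_pow_left₀ (by positivity) hi _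
    have h2 : 1 ≤ q * (d * ‖zz d c₀ i‖ ^ (d - 1)) := by
      calc (1 : ℝ) = 1 / (d * (2 * δ) ^ (d - 1)) * (d * (2 * δ) ^ (d - 1)) := by
            rw [one_div_mul_cancel (by positivity)]
        _ ≤ q * (d * ‖zz d c₀ i‖ ^ (d - 1)) := by
            rw [hq]
            gcongr
            exact le_max_right _ _
    have hP := (hc.Pd_pos i).le
    calc Pd d c₀ i = 1 * Pd d c₀ i := (one_mul _).symm
      _ ≤ (q * (d * ‖zz d c₀ i‖ ^ (d - 1))) * Pd d c₀ i := mul_le_mul_of_nonneg_right h2 hP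
      _ = _ := by ring
  have hsteps : ∀ m j, (∀ i < m, 2 * δ ≤ ‖zz d c₀ (j + i)‖) →
      Pd d c₀ j ≤ q ^ m * Pd d c₀ (j + m) := by
    intro m
    induction m with
    | zero =>
      intro j _
      simp
    | succ m ih =>
      intro j hj
      have h1 := ih j fun i hi => hj i (by omega)
      have h2 := hstep (j + m) (hj m (by omega))
      calc Pd d c₀ j ≤ q ^ m * Pd d c₀ (j + m) := h1
        _ ≤ q ^ m * (q * Pd d c₀ (j + m + 1)) := by gcongr
        _ = _ := by rw [pow_succ, add_assoc]; ring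
  -- a block
  have hblock : ∀ j, (∀ i < N, 2 * δ ≤ ‖zz d c₀ (j + i)‖) → Pd d c₀ j ≤ Pd d c₀ (j + N) := by
    intro j hj
    have h3 : zz d c₀ j ∈ VV d δ c₀ N := fun i hi => by
      rw [iter_zz]
      exact hj i hi
    have h4 := Pool.Agent.Y932.CA.one d δ c₀ N (zz d c₀ j) hd2 hδ h3
    rw [iter_zz] at h4
    have h5 := hN (zz d c₀ (j + N)) ((hc.bd _).trans (by norm_num))
    set X := ‖deriv ((f d c₀)^[N]) (zz d c₀ j)‖ with hX
    have hX0 : 0 ≤ X := norm_nonneg _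
    have h6 : 1 ≤ X := by
      have h7 : 1 ≤ 1 * X ^ 2 := h4.trans (mul_le_mul_of_nonneg_right h5 (by positivity))
      by_contra hcon
      push Not at hcon
      nlinarith
    rw [Pd_split]
    have hPj := (hc.Pd_pos j).le
    calc Pd d c₀ j = 1 * Pd d c₀ j := (one_mul _).symm
      _ ≤ X * Pd d c₀ j := mul_le_mul_of_nonneg_right h6 hPj
  refine ⟨q ^ N, one_le_pow₀ hq1, fun j m => ?_⟩
  induction m using Nat.strong_induction_on generalizing j with
  | _ m ih =>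
    intro hj
    rcases lt_or_ge m N with hm | hm
    · refine (hsteps m j hj).trans ?_
      have := (hc.Pd_pos (j + m)).le
      gcongr
    · obtain ⟨m', rfl⟩ := Nat.exists_eq_add_of_le hm
      have h1 := hblock j fun i hi => hj i (by omega)
      have h2 := ih m' (by omega) (j + N) fun i hi => by
        have := hj (N + i) (by omega)
        rwa [← add_assoc] at this
      rw [← add_assoc]
      exact h1.trans h2

/-- the passage near the critical point -/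
theorem binding (hc : CEp d C₁ lam c₀) {ε : ℝ} (hε : 0 < ε) (hε2 : 4 * d * ε ≤ Real.log lam)
    {C : ℝ} (hC : 1 ≤ C) (hs : ∀ n : ℕ, 1 ≤ C * Real.exp (ε * n) * ‖zz d c₀ n‖) :
    ∃ Q : ℝ, 0 < Q ∧ ∀ t : ℕ, ‖zz d c₀ t‖ ≤ 1 → ∃ k : ℕ,
      (∀ i ≤ k, d * ‖zz d c₀ t‖ ^ (d - 1) * Pd d c₀ t * Pd d c₀ i ≤ 2 * Pd d c₀ (t + 1 + i)) ∧
      Pd d c₀ t ≤ Q * ‖zz d c₀ t‖ ^ (1 / 2 : ℝ) * Pd d c₀ (t + 1 + k) := by
  have hd2 := hc.hd
  have hlam0 : 0 < lam := by linarith [hc.lam1]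
  have hl : 0 < Real.log lam := Real.log_pos hc.lam1
  have hC10 : 0 < C₁ := by linarith [hc.C1]
  have hdR : (2 : ℝ) ≤ d := by exact_mod_cast hd2
  obtain ⟨B, Ca, hPC⟩ := Pool.Agent.Y434.CA.pa d C₁ lam (Real.exp ε) hd2 hc.C1 hc.lam1
    (by rw [← Real.exp_zero]; exact Real.exp_lt_exp.2 hε)
  have hB1 : 1 ≤ B := hPC.Ca1.trans hPC.CaB
  have hexp : ∀ i : ℕ, Real.exp ε ^ i = Real.exp (ε * i) := fun i => by
    rw [← Real.exp_nat_mul]
    congr 1
    ring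
  obtain ⟨Q, hQ⟩ : ∃ Q, Q = 4 * B * C * (Real.exp (2 * ε) * C₁) := ⟨_, rfl⟩
  have hQ0 : 0 < Q := by rw [hQ]; positivity
  refine ⟨Q, hQ0, fun t ht => ?_⟩
  obtain ⟨r, hr⟩ : ∃ r, r = ‖zz d c₀ t‖ := ⟨_, rfl⟩
  rw [← hr] at ht ⊢
  have hr0 : 0 < r := by rw [hr]; exact norm_pos_iff.2 (hc.zz_ne t)
  obtain ⟨s, hsd⟩ : ∃ s, s = 2 * r ^ d := ⟨_, rfl⟩
  have hs0 : 0 < s := by rw [hsd]; positivity
  -- the first failure
  have hex : ∃ k : ℕ, ‖zz d c₀ k‖ < B * Real.exp ε ^ k * s * Pd d c₀ k := by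
    by_contra hcon
    push Not at hcon
    have h1 : ∀ k : ℕ, lam ^ k ≤ 2 * C₁ / (B * s) := by
      intro k
      rw [le_div_iff₀ (by positivity)]
      have h2 := hcon k
      have h3 := hc.exp k
      have h4 := hc.bd k
      have h5 : (1 : ℝ) ≤ Real.exp ε ^ k := one_le_pow₀ (Real.one_le_exp hε.le)
      have hP := (hc.Pd_pos k).le
      calc lam ^ k * (B * s) ≤ (C₁ * Pd d c₀ k) * (B * s) := by gcongr
        _ = C₁ * (B * 1 * s * Pd d c₀ k) := by ring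
        _ ≤ C₁ * (B * Real.exp ε ^ k * s * Pd d c₀ k) := by gcongr
        _ ≤ C₁ * 2 := by
            have := h2.trans h4
            gcongr
        _ = 2 * C₁ := by ring
    obtain ⟨k, hk⟩ := ((tendsto_pow_atTop_atTop_of_one_lt hc.lam1).eventually_gt_atTop
      (2 * C₁ / (B * s))).exists
    exact absurd (h1 k) (not_le.2 hk)
  classical
  obtain ⟨k, hk⟩ : ∃ k, k = Nat.find hex := ⟨_, rfl⟩
  have hk1 : ‖zz d c₀ k‖ < B * Real.exp ε ^ k * s * Pd d c₀ k := by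
    rw [hk]
    exact Nat.find_spec hex
  have hk2 : ∀ j < k, B * Real.exp ε ^ j * s * Pd d c₀ j ≤ ‖zz d c₀ j‖ := by
    intro j hj
    rw [hk] at hj
    exact not_lt.1 (Nat.find_min hex hj)
  have hxs : zz d c₀ (t + 1) ∈ ball c₀ s := by
    rw [mem_ball, dist_eq_norm, zz_succ, add_sub_cancel_right, norm_pow, ← hr, hsd]
    have : 0 < r ^ d := by positivity
    linarith
  have hpass := hPC.pass c₀ hc c₀ s k hs0 (by rw [sub_self, norm_zero]; exact hs0.le) hk2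
    (zz d c₀ (t + 1)) hxs
  have hPt := hc.Pd_pos t
  have hlow : ∀ i ≤ k, d * r ^ (d - 1) * Pd d c₀ t * Pd d c₀ i ≤ 2 * Pd d c₀ (t + 1 + i) := by
    intro i hi
    have h1 := (hpass i hi).2.1
    rw [Pd_split, Pd_succ, ← hr]
    have h2 : 0 ≤ d * r ^ (d - 1) * Pd d c₀ t := by positivity
    have h3 : Pd d c₀ i ≤ 2 * ‖deriv ((f d c₀)^[i]) (zz d c₀ (t + 1))‖ := by linarith
    calc d * r ^ (d - 1) * Pd d c₀ t * Pd d c₀ i
        ≤ d * r ^ (d - 1) * Pd d c₀ t * (2 * ‖deriv ((f d c₀)^[i]) (zz d c₀ (t + 1))‖) := by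
          gcongr
      _ = _ := by ring
  refine ⟨k, hlow, ?_⟩
  -- the length of the passage
  have hklen : Real.exp (2 * ε * k) ≤ Real.exp (2 * ε) * C₁ * r ^ (-(1 / 2 : ℝ)) := by
    rcases Nat.eq_zero_or_pos k with h0 | h0
    · rw [h0]
      have h1 : (1 : ℝ) ≤ Real.exp (2 * ε) := Real.one_le_exp (by positivity)
      have h2 : (1 : ℝ) ≤ r ^ (-(1 / 2 : ℝ)) :=
        Real.one_le_rpow_of_pos_of_le_one_of_nonpos hr0 ht (by norm_num)
      have h3 := hc.C1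
      simp only [Nat.cast_zero, mul_zero, Real.exp_zero]
      have h4 : 1 ≤ Real.exp (2 * ε) * C₁ := by nlinarith
      nlinarith
    · have h1 := hk2 (k - 1) (by omega)
      have h2 := hc.exp (k - 1)
      have h3 := hc.bd (k - 1)
      have h5 : (1 : ℝ) ≤ Real.exp ε ^ (k - 1) := one_le_pow₀ (Real.one_le_exp hε.le)
      have hP := (hc.Pd_pos (k - 1)).le
      have h6 : lam ^ (k - 1) ≤ C₁ * r ^ (-(d : ℝ)) := by
        have h7 : lam ^ (k - 1) * (2 * r ^ d) ≤ 2 * C₁ := by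
          calc lam ^ (k - 1) * (2 * r ^ d) ≤ (C₁ * Pd d c₀ (k - 1)) * (2 * r ^ d) := by gcongr
            _ = C₁ * (1 * 1 * s * Pd d c₀ (k - 1)) := by rw [hsd]; ring
            _ ≤ C₁ * (B * Real.exp ε ^ (k - 1) * s * Pd d c₀ (k - 1)) := by gcongr
            _ ≤ C₁ * 2 := by
                have := h1.trans h3
                gcongr
            _ = 2 * C₁ := by ring
        rw [Real.rpow_neg hr0.le, Real.rpow_natCast, ← div_eq_mul_inv, le_div_iff₀ (by positivity)]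
        linarith
      -- take the power `2 ε / log lam`
      obtain ⟨e, he⟩ : ∃ e, e = 2 * ε / Real.log lam := ⟨_, rfl⟩
      have he0 : 0 < e := by rw [he]; positivity
      have he1 : d * e ≤ 1 / 2 := by
        rw [he, mul_div_assoc', div_le_iff₀ hl]
        linarith
      have he2 : e ≤ 1 := by nlinarith
      have h7 : Real.exp (2 * ε * (k - 1 : ℕ)) = (lam ^ (k - 1)) ^ e := by
        rw [← Real.rpow_natCast, ← Real.rpow_mul hlam0.le, Real.rpow_def_of_pos hlam0, he]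
        congr 1
        field_simp
      have h8 : (lam ^ (k - 1)) ^ e ≤ C₁ * r ^ (-(1 / 2 : ℝ)) := by
        calc (lam ^ (k - 1)) ^ e ≤ (C₁ * r ^ (-(d : ℝ))) ^ e :=
              Real.rpow_le_rpow (by positivity) h6 he0.le
          _ = C₁ ^ e * r ^ (-(d : ℝ) * e) := by
              rw [Real.mul_rpow hC10.le (by positivity), ← Real.rpow_mul hr0.le]
          _ ≤ C₁ * r ^ (-(1 / 2 : ℝ)) := by
              have h9 : C₁ ^ e ≤ C₁ := by
                calc C₁ ^ e ≤ C₁ ^ (1 : ℝ) := Real.rpow_le_rpow_of_exponent_le hc.C1 he2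
                  _ = C₁ := Real.rpow_one _
              have h10 : r ^ (-(d : ℝ) * e) ≤ r ^ (-(1 / 2 : ℝ)) :=
                Real.rpow_le_rpow_of_exponent_ge hr0 ht (by linarith)
              gcongr
      have h9 : (k : ℝ) = (k - 1 : ℕ) + 1 := by
        have : k = (k - 1) + 1 := by omega
        exact_mod_cast this
      rw [h9, mul_add, mul_one, Real.exp_add, h7]
      calc (lam ^ (k - 1)) ^ e * Real.exp (2 * ε) ≤ (C₁ * r ^ (-(1 / 2 : ℝ))) * Real.exp (2 * ε) := by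
            gcongr
        _ = _ := by ring
  -- the gain
  have h1 : 1 ≤ B * C * Real.exp (2 * ε * k) * (2 * r ^ d) * Pd d c₀ k := by
    have h2 := hs k
    have h3 : 0 < Real.exp (ε * k) := Real.exp_pos _
    calc (1 : ℝ) ≤ C * Real.exp (ε * k) * ‖zz d c₀ k‖ := h2
      _ ≤ C * Real.exp (ε * k) * (B * Real.exp ε ^ k * s * Pd d c₀ k) := by gcongr
      _ = B * C * (Real.exp (ε * k) * Real.exp (ε * k)) * (2 * r ^ d) * Pd d c₀ k := by
          rw [hexp, hsd]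
          ring
      _ = _ := by
          rw [← Real.exp_add]
          congr 4
          ring
  have h2 := hlow k le_rfl
  have hPk := (hc.Pd_pos k).le
  have hrd : r ^ d = r ^ (d - 1) * r := by
    rw [← pow_succ]
    congr 1
    omega
  have hr12 : r ^ (-(1 / 2 : ℝ)) * r = r ^ (1 / 2 : ℝ) := by
    nth_rewrite 2 [← Real.rpow_one r]
    rw [← Real.rpow_add hr0]
    norm_num
  calc Pd d c₀ t = 1 * Pd d c₀ t := (one_mul _).symm
    _ ≤ (B * C * Real.exp (2 * ε * k) * (2 * r ^ d) * Pd d c₀ k) * Pd d c₀ t := by gcongr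
    _ ≤ (B * C * (Real.exp (2 * ε) * C₁ * r ^ (-(1 / 2 : ℝ))) * (2 * r ^ d) * Pd d c₀ k) *
        Pd d c₀ t := by gcongr
    _ = (2 * B * C * (Real.exp (2 * ε) * C₁) * (r ^ (-(1 / 2 : ℝ)) * r)) *
        (r ^ (d - 1) * Pd d c₀ t * Pd d c₀ k) := by
        rw [hrd]
        ring
    _ ≤ (2 * B * C * (Real.exp (2 * ε) * C₁) * (r ^ (-(1 / 2 : ℝ)) * r)) *
        (2 * Pd d c₀ (t + 1 + k)) := by
        have h3 : r ^ (d - 1) * Pd d c₀ t * Pd d c₀ k ≤ 2 * Pd d c₀ (t + 1 + k) := by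
          refine le_trans ?_ h2
          have h4 : 0 ≤ r ^ (d - 1) * Pd d c₀ t * Pd d c₀ k := by positivity
          nlinarith
        gcongr
    _ = _ := by
        rw [hr12, hQ]
        ring

/-- **The derivative along the orbit of the critical value decreases at most subexponentially.** -/
theorem no_drop (hc : CEp d C₁ lam c₀) (hs : Slow d c₀) {ε' : ℝ} (hε' : 0 < ε') :
    ∃ C : ℝ, 1 ≤ C ∧ ∀ m j : ℕ, Pd d c₀ j ≤ C * Real.exp (ε' * (j + m : ℕ)) * Pd d c₀ (j + m) := by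
  have hd2 := hc.hd
  have hl : 0 < Real.log lam := Real.log_pos hc.lam1
  have hC10 : 0 < C₁ := by linarith [hc.C1]
  have hdR : (2 : ℝ) ≤ d := by exact_mod_cast hd2
  obtain ⟨ε, hεd⟩ : ∃ ε, ε = min (ε' / d) (Real.log lam / (4 * d)) := ⟨_, rfl⟩
  have hε : 0 < ε := by rw [hεd]; exact lt_min (by positivity) (by positivity)
  have hε1 : d * ε ≤ ε' := by
    have : ε ≤ ε' / d := by rw [hεd]; exact min_le_left _ _
    rw [le_div_iff₀ (by positivity)] at this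
    linarith
  have hε2 : 4 * d * ε ≤ Real.log lam := by
    have : ε ≤ Real.log lam / (4 * d) := by rw [hεd]; exact min_le_right _ _
    rw [le_div_iff₀ (by positivity)] at this
    linarith
  obtain ⟨C, hC, hsC⟩ := hs ε hε
  obtain ⟨Q, hQ, hbind⟩ := binding hc hε hε2 hC hsC
  obtain ⟨ρ₀, G, hρ₀, hG, hfree⟩ := free_return hc
  have hG0 : 0 < G := by linarith
  obtain ⟨δ, hδd⟩ : ∃ δ, δ = min ρ₀ (min 1 ((1 / (G * Q)) ^ 2)) / 2 := ⟨_, rfl⟩
  have hδ2 : 2 * δ = min ρ₀ (min 1 ((1 / (G * Q)) ^ 2)) := by rw [hδd]; ring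
  have hδ : 0 < δ := by
    have : 0 < 2 * δ := by
      rw [hδ2]
      exact lt_min hρ₀ (lt_min one_pos (by positivity))
    linarith
  have hδρ : 2 * δ ≤ ρ₀ := by rw [hδ2]; exact min_le_left _ _
  have hδ1 : 2 * δ ≤ 1 := by rw [hδ2]; exact (min_le_right _ _).trans (min_le_left _ _)
  have hδQ : G * Q * (2 * δ) ^ (1 / 2 : ℝ) ≤ 1 := by
    have h1 : 2 * δ ≤ (1 / (G * Q)) ^ 2 := by
      rw [hδ2]
      exact (min_le_right _ _).trans (min_le_right _ _)
    have h2 : (2 * δ) ^ (1 / 2 : ℝ) ≤ 1 / (G * Q) := by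
      rw [← Real.sqrt_eq_rpow]
      exact (Real.sqrt_le_sqrt h1).trans (le_of_eq (Real.sqrt_sq (by positivity)))
    calc G * Q * (2 * δ) ^ (1 / 2 : ℝ) ≤ G * Q * (1 / (G * Q)) := by gcongr
      _ = 1 := by field_simp
  obtain ⟨A, hA, hfr⟩ := free hc hδ
  obtain ⟨D, hD⟩ : ∃ D, D = max A (G * (2 * C₁ * C ^ (d - 1))) := ⟨_, rfl⟩
  have hD1 : 1 ≤ D := by rw [hD]; exact hA.trans (le_max_left _ _)
  have hDA : A ≤ D := by rw [hD]; exact le_max_left _ _
  have hDG : G * (2 * C₁ * C ^ (d - 1)) ≤ D := by rw [hD]; exact le_max_right _ _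
  have hD0 : 0 < D := by linarith
  refine ⟨D, hD1, fun m => ?_⟩
  induction m using Nat.strong_induction_on with
  | _ m ih =>
    intro j
    have hPn := hc.Pd_pos (j + m)
    have he1 : 1 ≤ Real.exp (ε' * (j + m : ℕ)) := Real.one_le_exp (by positivity)
    by_cases h : ∀ i < m, 2 * δ ≤ ‖zz d c₀ (j + i)‖
    · calc Pd d c₀ j ≤ A * Pd d c₀ (j + m) := hfr j m h
        _ = A * 1 * Pd d c₀ (j + m) := by ring
        _ ≤ D * Real.exp (ε' * (j + m : ℕ)) * Pd d c₀ (j + m) := by gcongr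
    · push Not at h
      classical
      have hex : ∃ i, i < m ∧ ‖zz d c₀ (j + i)‖ < 2 * δ := h
      obtain ⟨i₀, hi₀⟩ : ∃ i₀, i₀ = Nat.find hex := ⟨_, rfl⟩
      obtain ⟨h1, h2⟩ : i₀ < m ∧ ‖zz d c₀ (j + i₀)‖ < 2 * δ := by
        rw [hi₀]
        exact Nat.find_spec hex
      have h3 : ∀ i < i₀, 2 * δ ≤ ‖zz d c₀ (j + i)‖ := by
        intro i hi
        have h4 := Nat.find_min hex (m := i) (by rw [← hi₀]; exact hi)
        by_contra hcon
        exact h4 ⟨by omega, not_le.1 hcon⟩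
      have hret := hfree δ hδ hδρ j i₀ h3 h2.le
      obtain ⟨t, ht⟩ : ∃ t, t = j + i₀ := ⟨_, rfl⟩
      rw [← ht] at hret h2
      obtain ⟨k, hlow, hgain⟩ := hbind t (h2.le.trans hδ1)
      have hPt := hc.Pd_pos t
      rcases le_or_gt (t + 1 + k) (j + m) with hcase | hcase
      · obtain ⟨m', hm'⟩ := Nat.exists_eq_add_of_le hcase
        have h5 := ih m' (by omega) (t + 1 + k)
        rw [← hm'] at h5
        refine le_trans ?_ h5
        have hPk := (hc.Pd_pos (t + 1 + k)).le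
        calc Pd d c₀ j ≤ G * Pd d c₀ t := hret
          _ ≤ G * (Q * ‖zz d c₀ t‖ ^ (1 / 2 : ℝ) * Pd d c₀ (t + 1 + k)) := by gcongr
          _ ≤ G * (Q * (2 * δ) ^ (1 / 2 : ℝ) * Pd d c₀ (t + 1 + k)) := by gcongr
          _ = (G * Q * (2 * δ) ^ (1 / 2 : ℝ)) * Pd d c₀ (t + 1 + k) := by ring
          _ ≤ 1 * Pd d c₀ (t + 1 + k) := by gcongr
          _ = _ := one_mul _
      · obtain ⟨i, hi⟩ : ∃ i, t + 1 + i = j + m := ⟨j + m - (t + 1), by omega⟩
        have h5 := hlow i (by omega)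
        rw [hi] at h5
        have h6 := hsC t
        have hr0 : 0 ≤ ‖zz d c₀ t‖ := norm_nonneg _
        have h7 : 1 ≤ (C * Real.exp (ε * t)) ^ (d - 1) * ‖zz d c₀ t‖ ^ (d - 1) := by
          rw [← mul_pow]
          exact one_le_pow₀ h6
        have h8 : 1 ≤ C₁ * Pd d c₀ i := (one_le_pow₀ hc.lam1.le).trans (hc.exp i)
        have hPi := (hc.Pd_pos i).le
        have h9 : Real.exp (ε * t) ^ (d - 1) ≤ Real.exp (ε' * (j + m : ℕ)) := by
          rw [← Real.exp_nat_mul]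
          apply Real.exp_le_exp.2
          have h10 : ((d - 1 : ℕ) : ℝ) ≤ d := by exact_mod_cast Nat.sub_le d 1
          have h11 : (t : ℝ) ≤ (j + m : ℕ) := by exact_mod_cast (by omega : t ≤ j + m)
          calc ((d - 1 : ℕ) : ℝ) * (ε * t) ≤ d * (ε * t) := by gcongr
            _ = d * ε * t := by ring
            _ ≤ ε' * (j + m : ℕ) := by gcongr
        calc Pd d c₀ j ≤ G * Pd d c₀ t := hret
          _ = G * (1 * 1 * Pd d c₀ t) := by ring
          _ ≤ G * (((C * Real.exp (ε * t)) ^ (d - 1) * ‖zz d c₀ t‖ ^ (d - 1)) *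
              (C₁ * Pd d c₀ i) * Pd d c₀ t) := by gcongr
          _ = G * (C ^ (d - 1) * Real.exp (ε * t) ^ (d - 1) * C₁ *
              (1 * ‖zz d c₀ t‖ ^ (d - 1) * Pd d c₀ t * Pd d c₀ i)) := by
              rw [mul_pow]
              ring
          _ ≤ G * (C ^ (d - 1) * Real.exp (ε * t) ^ (d - 1) * C₁ *
              (d * ‖zz d c₀ t‖ ^ (d - 1) * Pd d c₀ t * Pd d c₀ i)) := by
              have : (1 : ℝ) ≤ d := by linarith
              gcongr
          _ ≤ G * (C ^ (d - 1) * Real.exp (ε' * (j + m : ℕ)) * C₁ * (2 * Pd d c₀ (j + m))) := by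
              gcongr
          _ = (G * (2 * C₁ * C ^ (d - 1))) * Real.exp (ε' * (j + m : ℕ)) * Pd d c₀ (j + m) := by
              ring
          _ ≤ _ := by gcongr

/-- The largest derivative is attained, up to a subexponential factor, at the last time. -/
theorem Mx_le (hc : CEp d C₁ lam c₀) (hs : Slow d c₀) {ε : ℝ} (hε : 0 < ε) :
    ∃ C : ℝ, 1 ≤ C ∧ ∀ n : ℕ, Mx d c₀ n ≤ C * Real.exp (ε * n) * Pd d c₀ n := by
  obtain ⟨C, hC, h⟩ := no_drop hc hs hε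
  refine ⟨C, hC, fun n => ?_⟩
  obtain ⟨j, hj, hM⟩ := exists_Mx d c₀ n
  have h1 := h (n - j) j
  rw [Nat.add_sub_cancel' hj] at h1
  rw [hM]
  exact h1

end Pool.Agent.K6.H77.LD
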