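import Pool.Agent.K6.H77.LD.Meas
import Pool.Agent.K6.H77.LD.Nd

/-! # Collet-Eckmann parameters with slow recurrence: lower and upper exponents (helper77) -/

set_option autoImplicit false

namespace Pool.Agent.K6.H77.LD

open Complex Metric Set Filter Topology MeasureTheory Pool.Agent.H713R2
open N62a1eb23 Pool.Agent.Y298.CA Pool.Agent.Y298.SH.CD
open Pool.Agent.H712R2 (P)
open Pool.Agent.Y736.HD (Ang vol_Ang_ne ev_small ev_lt ev_pos GS)

variable {d : ℕ} {C₁ lam : ℝ} {c₀ : ℂ} {ψ : ℂ → ℂ}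

section real

variable {α : Type*} {F : Filter α}

theorem ereal_liminf {u : α → ℝ} {a : ℝ} (h1 : ∀ t : ℝ, t < a → ∀ᶠ x in F, t ≤ u x)
    (h2 : ∀ t : ℝ, a < t → ∃ᶠ x in F, u x ≤ t) : liminf (fun x => (u x : EReal)) F = a := by
  apply le_antisymm
  · by_contra hcon
    push Not at hcon
    obtain ⟨t, ht1, ht2⟩ := EReal.lt_iff_exists_real_btwn.1 hcon
    have h3 := eventually_lt_of_lt_liminf ht2
    obtain ⟨x, hx1, hx2⟩ := ((h2 t (by exact_mod_cast ht1)).and_eventually h3).exists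
    have h4 : t < u x := by exact_mod_cast hx2
    linarith
  · by_contra hcon
    push Not at hcon
    obtain ⟨t, ht1, ht2⟩ := EReal.lt_iff_exists_real_btwn.1 hcon
    have h3 := frequently_lt_of_liminf_lt (by isBoundedDefault) ht1
    obtain ⟨x, hx1, hx2⟩ := (h3.and_eventually (h1 t (by exact_mod_cast ht2))).exists
    have h4 : u x < t := by exact_mod_cast hx1
    linarith

theorem ereal_limsup {u : α → ℝ} {a : ℝ} (h1 : ∀ t : ℝ, a < t → ∀ᶠ x in F, u x ≤ t)
    (h2 : ∀ t : ℝ, t < a → ∃ᶠ x in F, t ≤ u x) : limsup (fun x => (u x : EReal)) F = a := by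
  apply le_antisymm
  · by_contra hcon
    push Not at hcon
    obtain ⟨t, ht1, ht2⟩ := EReal.lt_iff_exists_real_btwn.1 hcon
    have h3 := frequently_lt_of_lt_limsup (by isBoundedDefault) ht2
    obtain ⟨x, hx1, hx2⟩ := (h3.and_eventually (h1 t (by exact_mod_cast ht1))).exists
    have h4 : t < u x := by exact_mod_cast hx1
    linarith
  · by_contra hcon
    push Not at hcon
    obtain ⟨t, ht1, ht2⟩ := EReal.lt_iff_exists_real_btwn.1 hcon
    have h3 := eventually_lt_of_limsup_lt ht1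
    obtain ⟨x, hx1, hx2⟩ := ((h2 t (by exact_mod_cast ht2)).and_eventually h3).exists
    have h4 : u x < t := by exact_mod_cast hx2
    linarith

end real

/-- the exponents of a function of the radius -/
theorem Bounds.exponents {F : ℝ → ℝ} {A₁ A₂ : ℝ} (h : Bounds F A₁ A₂) (hA₁ : 0 < A₁)
    (hA : A₁ ≤ A₂) :
    liminf (fun r => ((Real.log (F r) / Real.log r : ℝ) : EReal)) (𝓝[>] 0) = (A₁ : ℝ) ∧
    limsup (fun r => ((Real.log (F r) / Real.log r : ℝ) : EReal)) (𝓝[>] 0) = (A₂ : ℝ) := by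
  have hpos : ∀ᶠ r : ℝ in 𝓝[>] 0, 0 < F r := by
    filter_upwards [h.low (A₂ + 1) (by linarith), ev_pos] with r hr hr0
    exact lt_of_lt_of_le (Real.rpow_pos_of_pos hr0 _) hr
  have hup : ∀ (κ r : ℝ), 0 < r → r < 1 → 0 < F r → F r ≤ r ^ κ →
      κ ≤ Real.log (F r) / Real.log r := by
    intro κ r hr0 hr1 hF hr
    rw [le_div_iff_of_neg (Real.log_neg hr0 hr1), ← Real.log_rpow hr0]
    exact Real.log_le_log hF hr
  have hlow : ∀ (κ r : ℝ), 0 < r → r < 1 → r ^ κ ≤ F r → Real.log (F r) / Real.log r ≤ κ := by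
    intro κ r hr0 hr1 hr
    rw [div_le_iff_of_neg (Real.log_neg hr0 hr1), ← Real.log_rpow hr0]
    exact Real.log_le_log (Real.rpow_pos_of_pos hr0 _) hr
  constructor
  · refine ereal_liminf (fun t ht => ?_) fun t ht => ?_
    · have h1 : max t (A₁ / 2) < A₁ := max_lt ht (by linarith)
      have h2 : 0 < max t (A₁ / 2) := lt_max_of_lt_right (by linarith)
      filter_upwards [h.up _ h2 h1, hpos, ev_pos, ev_lt one_pos] with r hr1 hr2 hr3 hr4
      exact (le_max_left _ _).trans (hup _ r hr3 hr4 hr2 hr1)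
    · refine ((h.lowf t ht).and_eventually (ev_pos.and (ev_lt one_pos))).mono fun r hr => ?_
      exact hlow t r hr.2.1 hr.2.2 hr.1
  · refine ereal_limsup (fun t ht => ?_) fun t ht => ?_
    · filter_upwards [h.low t ht, ev_pos, ev_lt one_pos] with r hr1 hr3 hr4
      exact hlow t r hr3 hr4 hr1
    · have hA₂ : 0 < A₂ := hA₁.trans_le hA
      have h1 : max t (A₂ / 2) < A₂ := max_lt ht (by linarith)
      have h2 : 0 < max t (A₂ / 2) := lt_max_of_lt_right (by linarith)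
      refine ((h.upf _ h2 h1).and_eventually (hpos.and (ev_pos.and (ev_lt one_pos)))).mono
        fun r hr => ?_
      exact (le_max_left _ _).trans (hup _ r hr.2.2.1 hr.2.2.2 hr.2.1 hr.1)

/-- the growth exponents of the derivatives -/
theorem exists_grows (hd2 : 2 ≤ d) (hc : CEp d C₁ lam c₀) : ∃ a b : ℝ, Grows d c₀ a b ∧
    liminf (fun n : ℕ => ((Real.log (Mx d c₀ n) / n : ℝ) : EReal)) atTop = (a : ℝ) ∧
    limsup (fun n : ℕ => ((Real.log (Mx d c₀ n) / n : ℝ) : EReal)) atTop = (b : ℝ) := by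
  obtain ⟨u, hu⟩ : ∃ u : ℕ → ℝ, u = fun n => Real.log (Mx d c₀ n) / n := ⟨_, rfl⟩
  have hlam : 0 < Real.log lam := Real.log_pos hc.lam1
  have hlam0 : 0 < lam := by linarith [hc.lam1]
  have hC10 : 0 < C₁ := by linarith [hc.C1]
  have hM0 : ∀ n, 0 < Mx d c₀ n := fun n => (hc.Pd_pos 0).trans_le (Pd_le_Mx (Nat.zero_le n))
  -- upper bound
  obtain ⟨D, hD⟩ : ∃ D : ℝ, D = d * 2 ^ (d - 1) := ⟨_, rfl⟩
  have hD1 : 1 ≤ D := by
    have h1 : (1 : ℝ) ≤ d := by exact_mod_cast (by omega : 1 ≤ d)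
    have h2 : (1 : ℝ) ≤ 2 ^ (d - 1) := one_le_pow₀ (by norm_num)
    rw [hD]
    nlinarith
  have hPd0 : Pd d c₀ 0 = 1 := by
    unfold Pd
    simp
  have hPd : ∀ n, Pd d c₀ n ≤ D ^ n := by
    intro n
    induction n with
    | zero => rw [hPd0, pow_zero]
    | succ n ih =>
      rw [Pd_succ, pow_succ]
      have h1 : ‖zz d c₀ n‖ ^ (d - 1) ≤ 2 ^ (d - 1) :=
        pow_le_pow_left₀ (norm_nonneg _) (hc.bd n) _
      have h2 := (hc.Pd_pos n).le
      calc (d : ℝ) * ‖zz d c₀ n‖ ^ (d - 1) * Pd d c₀ n ≤ (d * 2 ^ (d - 1)) * D ^ n := by gcongr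
        _ = D ^ n * D := by rw [hD]; ring
  have hMD : ∀ n, Mx d c₀ n ≤ D ^ n := by
    intro n
    obtain ⟨j, hj, h⟩ := exists_Mx d c₀ n
    rw [h]
    exact (hPd j).trans (pow_le_pow_right₀ hD1 hj)
  have hub : ∀ n, 1 ≤ n → u n ≤ Real.log D := by
    intro n hn
    have hn0 : (0 : ℝ) < n := by exact_mod_cast hn
    rw [hu]
    simp only
    rw [div_le_iff₀ hn0]
    have := Real.log_le_log (hM0 n) (hMD n)
    rw [Real.log_pow] at this
    linarith
  have hML : ∀ n, lam ^ n ≤ C₁ * Mx d c₀ n := fun n =>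
    (hc.exp n).trans (mul_le_mul_of_nonneg_left (Pd_le_Mx le_rfl) hC10.le)
  have hlb : ∀ᶠ n : ℕ in atTop, Real.log lam / 2 ≤ u n := by
    filter_upwards [eventually_ge_atTop 1,
      tendsto_natCast_atTop_atTop.eventually_ge_atTop (2 * Real.log C₁ / Real.log lam)] with n h1 h2
    have hn0 : (0 : ℝ) < n := by exact_mod_cast h1
    rw [hu]
    simp only
    rw [le_div_iff₀ hn0]
    have h3 := Real.log_le_log (pow_pos hlam0 n) (hML n)
    rw [Real.log_pow, Real.log_mul hC10.ne' (hM0 n).ne'] at h3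
    rw [div_le_iff₀ hlam] at h2
    linarith
  have hbl : (atTop : Filter ℕ).IsBoundedUnder (· ≥ ·) u := ⟨_, eventually_map.2 hlb⟩
  have hbu : (atTop : Filter ℕ).IsBoundedUnder (· ≤ ·) u :=
    ⟨Real.log D, eventually_map.2 (by
      filter_upwards [eventually_ge_atTop 1] with n hn
      exact hub n hn)⟩
  obtain ⟨a, ha⟩ : ∃ a, a = liminf u atTop := ⟨_, rfl⟩
  obtain ⟨b, hb⟩ : ∃ b, b = limsup u atTop := ⟨_, rfl⟩
  have ha0 : 0 < a := by
    have h1 : Real.log lam / 2 ≤ a := by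
      rw [ha]
      exact le_liminf_of_le hbu.isCoboundedUnder_ge hlb
    linarith
  have hab : a ≤ b := by
    rw [ha, hb]
    exact liminf_le_limsup hbu hbl
  have e1 : ∀ β : ℝ, a < β → ∃ᶠ n : ℕ in atTop, u n < β := fun β hβ =>
    frequently_lt_of_liminf_lt hbu.isCoboundedUnder_ge (by rwa [← ha])
  have e2 : ∀ α : ℝ, α < b → ∃ᶠ n : ℕ in atTop, α < u n := fun α hα =>
    frequently_lt_of_lt_limsup hbl.isCoboundedUnder_le (by rwa [← hb])
  have e3 : ∀ α : ℝ, α < a → ∀ᶠ n : ℕ in atTop, α < u n := fun α hα =>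
    eventually_lt_of_lt_liminf (by rwa [← ha]) hbl
  have e4 : ∀ β : ℝ, b < β → ∀ᶠ n : ℕ in atTop, u n < β := fun β hβ =>
    eventually_lt_of_limsup_lt (by rwa [← hb]) hbu
  have hle : ∀ (β : ℝ) (n : ℕ), 1 ≤ n → u n < β → Mx d c₀ n ≤ Real.exp (β * n) := by
    intro β n hn h1
    have hn0 : (0 : ℝ) < n := by exact_mod_cast hn
    rw [hu] at h1
    simp only at h1
    rw [div_lt_iff₀ hn0] at h1
    rw [← Real.exp_log (hM0 n)]
    exact Real.exp_le_exp.2 h1.le
  have hge : ∀ (α : ℝ) (n : ℕ), 1 ≤ n → α < u n → Real.exp (α * n) ≤ Mx d c₀ n := by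
    intro α n hn h1
    have hn0 : (0 : ℝ) < n := by exact_mod_cast hn
    rw [hu] at h1
    simp only at h1
    rw [lt_div_iff₀ hn0] at h1
    rw [← Real.exp_log (hM0 n)]
    exact Real.exp_le_exp.2 h1.le
  refine ⟨a, b, ⟨ha0, hab, fun β hβ => ?_, fun β hβ => ?_, fun α hα => ?_, fun α hα => ?_⟩, ?_, ?_⟩
  · obtain ⟨N, hN⟩ := eventually_atTop.1 ((e4 β hβ).and (eventually_ge_atTop 1))
    have hnn : ∀ i ∈ Finset.range N, 0 ≤ Mx d c₀ i := fun i _ => (hM0 i).le
    refine ⟨1 + ∑ i ∈ Finset.range N, Mx d c₀ i, by linarith [Finset.sum_nonneg hnn], fun n => ?_⟩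
    rcases lt_or_ge n N with hn | hn
    · have h1 := Finset.single_le_sum hnn (Finset.mem_range.2 hn)
      have h2 : 1 ≤ Real.exp (β * n) := Real.one_le_exp (by
        have : 0 < β := (ha0.trans_le hab).trans hβ
        positivity)
      have h3 : 0 ≤ 1 + ∑ i ∈ Finset.range N, Mx d c₀ i := by linarith [Finset.sum_nonneg hnn]
      calc Mx d c₀ n ≤ (1 + ∑ i ∈ Finset.range N, Mx d c₀ i) * 1 := by linarith
        _ ≤ _ := mul_le_mul_of_nonneg_left h2 h3
    · have h1 := hle β n (hN n hn).2 (hN n hn).1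
      have h2 := Finset.sum_nonneg hnn
      calc Mx d c₀ n ≤ 1 * Real.exp (β * n) := by rw [one_mul]; exact h1
        _ ≤ _ := mul_le_mul_of_nonneg_right (by linarith) (Real.exp_pos _).le
  · exact ((e1 β hβ).and_eventually (eventually_ge_atTop 1)).mono fun n hn => hle β n hn.2 hn.1
  · obtain ⟨N, hN⟩ := eventually_atTop.1 ((e3 α hα).and (eventually_ge_atTop 1))
    have hnn : ∀ i ∈ Finset.range N, 0 ≤ Real.exp (α * i) / Mx d c₀ i := fun i _ => by
      have := hM0 i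
      positivity
    refine ⟨1 + ∑ i ∈ Finset.range N, Real.exp (α * i) / Mx d c₀ i,
      by linarith [Finset.sum_nonneg hnn], fun n => ?_⟩
    rcases lt_or_ge n N with hn | hn
    · have h1 := Finset.single_le_sum hnn (Finset.mem_range.2 hn)
      rw [← div_le_iff₀ (hM0 n)]
      linarith
    · have h1 := hge α n (hN n hn).2 (hN n hn).1
      have h2 := Finset.sum_nonneg hnn
      calc Real.exp (α * n) ≤ 1 * Mx d c₀ n := by rw [one_mul]; exact h1
        _ ≤ _ := mul_le_mul_of_nonneg_right (by linarith) (hM0 n).le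
  · exact ((e2 α hα).and_eventually (eventually_ge_atTop 1)).mono fun n hn => hge α n hn.2 hn.1
  · refine ereal_liminf (u := fun n : ℕ => Real.log (Mx d c₀ n) / n) (fun t ht => ?_) fun t ht => ?_
    · filter_upwards [e3 t ht] with n hn
      rw [hu] at hn
      exact hn.le
    · refine (e1 t ht).mono fun n hn => ?_
      rw [hu] at hn
      exact hn.le
  · refine ereal_limsup (u := fun n : ℕ => Real.log (Mx d c₀ n) / n) (fun t ht => ?_) fun t ht => ?_
    · filter_upwards [e4 t ht] with n hn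
      rw [hu] at hn
      exact hn.le
    · refine (e2 t ht).mono fun n hn => ?_
      rw [hu] at hn
      exact hn.le

/-- **The modulus of continuity of the loop at one scale.** -/
theorem loop_pt {F : ℂ → ℂ} (hF : ContinuousOn F {w | 1 ≤ ‖w‖}) (hE : ∀ w, 1 < ‖w‖ → F w = ψ w)
    {ζ : ℂ} (hζ : ‖ζ‖ = 1) (hFζ : F ζ = c₀) {p κ : ℝ} (hexp : 1 < p * κ) :
    ∀ᶠ δ : ℝ in 𝓝[>] 0, (volume (Ang ψ c₀ (δ ^ p))).toReal ≤ (δ ^ p) ^ κ →
      ∃ ξ : ℂ, ‖ξ‖ = 1 ∧ ‖ξ - ζ‖ ≤ δ ∧ δ ^ p ≤ ‖F ξ - F ζ‖ := by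
  have hpi := Real.pi_pos
  -- the angle of `ζ`
  obtain ⟨θ₀, hθ₀, hθζ⟩ : ∃ θ₀ : ℝ, θ₀ ∈ Ioc 0 (2 * Real.pi) ∧ exp (θ₀ * I) = ζ := by
    have h1 : exp ((arg ζ : ℝ) * I) = ζ := by
      have := Complex.norm_mul_exp_arg_mul_I ζ
      rwa [hζ, ofReal_one, one_mul] at this
    rcases le_or_gt (arg ζ) 0 with h2 | h2
    · refine ⟨arg ζ + 2 * Real.pi, ⟨?_, by linarith⟩, ?_⟩
      · have := Complex.neg_pi_lt_arg ζ
        linarith
      · push_cast
        rw [add_mul, Complex.exp_add, Complex.exp_two_pi_mul_I, mul_one]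
        exact h1
    · exact ⟨arg ζ, ⟨h2, by linarith [Complex.arg_le_pi ζ]⟩, h1⟩
  filter_upwards [ev_pos, ev_lt one_pos, ev_lt hθ₀.1] with δ hδ0 hδ1 hδ2 hδ3
  by_contra hcon
  push Not at hcon
  -- an interval of angles
  have hsub : Ioc (θ₀ - δ) θ₀ ⊆ Ang ψ c₀ (δ ^ p) := by
    intro θ hθ
    refine ⟨⟨by linarith [hθ.1], hθ.2.trans hθ₀.2⟩, F (exp (θ * I)), ?_, ?_⟩
    · rw [mem_ball, dist_eq_norm, ← hFζ]
      apply hcon
      · exact Complex.norm_exp_ofReal_mul_I θ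
      · rw [← hθζ]
        have h1 : exp (θ * I) - exp (θ₀ * I) = exp (θ₀ * I) * (exp (I * ((θ - θ₀ : ℝ) : ℂ)) - 1) := by
          rw [mul_sub, ← Complex.exp_add, mul_one]
          congr 2
          push_cast
          ring
        rw [h1, norm_mul, Complex.norm_exp_ofReal_mul_I, one_mul]
        refine (Real.norm_exp_I_mul_ofReal_sub_one_le).trans ?_
        rw [Real.norm_eq_abs, abs_le]
        constructor <;> linarith [hθ.1, hθ.2]
    · have h1 : ContinuousWithinAt F {w | 1 ≤ ‖w‖} (exp (θ * I)) :=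
        hF _ (by
          show 1 ≤ ‖exp (θ * I)‖
          rw [Complex.norm_exp_ofReal_mul_I])
      have h2 : Tendsto (fun ρ : ℝ => (ρ : ℂ) * exp (θ * I)) (𝓝[>] 1)
          (𝓝[{w | 1 ≤ ‖w‖}] (exp (θ * I))) := by
        rw [tendsto_nhdsWithin_iff]
        refine ⟨?_, ?_⟩
        · have h3 : Continuous fun ρ : ℝ => (ρ : ℂ) * exp (θ * I) := by fun_prop
          have h4 := (h3.tendsto 1).mono_left (nhdsWithin_le_nhds (s := Ioi (1 : ℝ)))
          simpa using h4
        · filter_upwards [self_mem_nhdsWithin] with ρ hρ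
          have hρ' : 1 < ρ := hρ
          show 1 ≤ ‖(ρ : ℂ) * exp (θ * I)‖
          rw [norm_mul, Complex.norm_exp_ofReal_mul_I, mul_one, Complex.norm_real,
            Real.norm_of_nonneg (by linarith)]
          exact hρ'.le
      refine (h1.tendsto.comp h2).congr' ?_
      filter_upwards [self_mem_nhdsWithin] with ρ hρ
      have hρ' : 1 < ρ := hρ
      apply hE
      rw [norm_mul, Complex.norm_exp_ofReal_mul_I, mul_one, Complex.norm_real,
        Real.norm_of_nonneg (by linarith)]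
      exact hρ'
  have h1 : δ ≤ (volume (Ang ψ c₀ (δ ^ p))).toReal := by
    have h2 := ENNReal.toReal_mono (vol_Ang_ne ψ c₀ (δ ^ p)) (measure_mono hsub)
    rw [Real.volume_Ioc, ENNReal.toReal_ofReal (by linarith)] at h2
    linarith
  have h2 := h1.trans hδ3
  rw [← Real.rpow_mul hδ0.le] at h2
  have h3 : δ ^ (p * κ) < δ ^ (1 : ℝ) := Real.rpow_lt_rpow_of_exponent_gt hδ0 hδ1 hexp
  rw [Real.rpow_one] at h3
  linarith

theorem rpow_tendsto {p : ℝ} (hp : 0 < p) : Tendsto (fun δ : ℝ => δ ^ p) (𝓝[>] 0) (𝓝[>] 0) := by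
  rw [tendsto_nhdsWithin_iff]
  refine ⟨?_, ?_⟩
  · have h1 := (Real.continuousAt_rpow_const 0 p (Or.inr hp.le)).tendsto.mono_left
      (nhdsWithin_le_nhds (s := Ioi (0 : ℝ)))
    rwa [Real.zero_rpow hp.ne'] at h1
  · filter_upwards [ev_pos] with δ hδ
    exact Real.rpow_pos_of_pos hδ _

/-- **The modulus of continuity of the loop.** -/
theorem loop_bounds {A₁ A₂ : ℝ} (hA₁ : 0 < A₁) (hA : A₁ ≤ A₂)
    (hB : Bounds (fun r => (volume (Ang ψ c₀ r)).toReal) A₁ A₂) {F : ℂ → ℂ}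
    (hF : ContinuousOn F {w | 1 ≤ ‖w‖}) (hE : ∀ w, 1 < ‖w‖ → F w = ψ w)
    {ζ : ℂ} (hζ : ‖ζ‖ = 1) (hFζ : F ζ = c₀) {ε : ℝ} (hε : 0 < ε) :
    (∀ᶠ δ : ℝ in 𝓝[>] 0, ∃ ξ : ℂ, ‖ξ‖ = 1 ∧ ‖ξ - ζ‖ ≤ δ ∧ δ ^ (1 / A₁ + ε) ≤ ‖F ξ - F ζ‖) ∧
    ∃ᶠ δ : ℝ in 𝓝[>] 0, ∃ ξ : ℂ, ‖ξ‖ = 1 ∧ ‖ξ - ζ‖ ≤ δ ∧ δ ^ (1 / A₂ + ε) ≤ ‖F ξ - F ζ‖ := by
  have key : ∀ A : ℝ, 0 < A → ∃ κ, 0 < κ ∧ κ < A ∧ 1 < (1 / A + ε) * κ := by
    intro A hA
    have h1 : 1 / (1 / A + ε) < A := by
      rw [div_lt_iff₀ (by positivity)]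
      have : A * (1 / A + ε) = 1 + A * ε := by field_simp
      rw [this]
      have : 0 < A * ε := by positivity
      linarith
    obtain ⟨κ, h2, h3⟩ := exists_between h1
    have h4 : 0 < κ := lt_trans (by positivity) h2
    refine ⟨κ, h4, h3, ?_⟩
    rw [div_lt_iff₀ (by positivity)] at h2
    linarith
  have hA₂ : 0 < A₂ := hA₁.trans_le hA
  constructor
  · obtain ⟨κ, h1, h2, h3⟩ := key A₁ hA₁
    have hp : 0 < 1 / A₁ + ε := by positivity
    filter_upwards [loop_pt hF hE hζ hFζ h3, (rpow_tendsto hp).eventually (hB.up κ h1 h2)]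
      with δ h4 h5
    exact h4 h5
  · obtain ⟨κ, h1, h2, h3⟩ := key A₂ hA₂
    have hp : 0 < 1 / A₂ + ε := by positivity
    have h4 := loop_pt hF hE hζ hFζ h3
    -- change of variables
    have h5 : Tendsto (fun r : ℝ => r ^ (1 / (1 / A₂ + ε))) (𝓝[>] 0) (𝓝[>] 0) :=
      rpow_tendsto (by positivity)
    refine h5.frequently ?_
    refine ((hB.upf κ h1 h2).and_eventually ((h5.eventually h4).and ev_pos)).mono fun r hr => ?_
    obtain ⟨h6, h7, h8⟩ := hr
    apply h7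
    have e1 : (r ^ (1 / (1 / A₂ + ε))) ^ (1 / A₂ + ε) = r := by
      rw [← Real.rpow_mul h8.le, one_div_mul_cancel hp.ne', Real.rpow_one]
    rw [e1]
    exact h6

theorem log_div_ev (C : ℝ) {ε : ℝ} (hε : 0 < ε) : ∀ᶠ n : ℕ in atTop, Real.log C ≤ ε * n := by
  filter_upwards [tendsto_natCast_atTop_atTop.eventually_ge_atTop (Real.log C / ε)] with n hn
  rw [div_le_iff₀ hε] at hn
  linarith

/-- **The growth exponents are the lower and the upper Lyapunov exponent.** -/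
theorem lyap_exps (hc : CEp d C₁ lam c₀) (hs : Slow d c₀) {a b : ℝ} (hg : Grows d c₀ a b) :
    liminf (fun n : ℕ => ((Real.log (Pd d c₀ n) / n : ℝ) : EReal)) atTop = (a : ℝ) ∧
    limsup (fun n : ℕ => ((Real.log (Pd d c₀ n) / n : ℝ) : EReal)) atTop = (b : ℝ) := by
  have hP := hc.Pd_pos
  -- from a lower bound for the maximum
  have key : ∀ t α : ℝ, t < α → ∃ C : ℝ, 1 ≤ C ∧ ∀ᶠ n : ℕ in atTop, ∀ C' : ℝ, 1 ≤ C' →
      Real.log C' ≤ (α - t) / 4 * n → Real.exp (α * n) ≤ C' * Mx d c₀ n →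
      t ≤ Real.log (Pd d c₀ n) / n := by
    intro t α ht
    obtain ⟨C, hC, h⟩ := Mx_le hc hs (ε := (α - t) / 4) (by linarith)
    refine ⟨C, hC, ?_⟩
    filter_upwards [eventually_ge_atTop 1, log_div_ev C (show 0 < (α - t) / 4 by linarith)]
      with n hn1 hn2 C' hC' hn3 hn4
    have hn0 : (0 : ℝ) < n := by exact_mod_cast hn1
    rw [le_div_iff₀ hn0]
    have h1 : Real.exp (α * n) ≤ C' * (C * Real.exp ((α - t) / 4 * n) * Pd d c₀ n) :=
      hn4.trans (mul_le_mul_of_nonneg_left (h n) (by linarith))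
    have h2 := Real.log_le_log (Real.exp_pos _) h1
    have hPn := hP n
    rw [Real.log_exp, Real.log_mul (by linarith) (by positivity),
      Real.log_mul (by positivity) hPn.ne', Real.log_mul (by linarith) (Real.exp_pos _).ne',
      Real.log_exp] at h2
    have h3 : 0 ≤ (α - t) / 4 * n := by
      have : 0 < α - t := by linarith
      positivity
    nlinarith
  constructor
  · refine ereal_liminf (u := fun n : ℕ => Real.log (Pd d c₀ n) / n) (fun t ht => ?_) fun t ht => ?_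
    · obtain ⟨α, h1, h2⟩ := exists_between ht
      obtain ⟨C, -, h3⟩ := key t α h1
      obtain ⟨C', hC', h4⟩ := hg.low α h2
      filter_upwards [h3, log_div_ev C' (show 0 < (α - t) / 4 by linarith)] with n h5 h6
      exact h5 C' hC' h6 (h4 n)
    · refine ((hg.upf t ht).and_eventually (eventually_ge_atTop 1)).mono fun n hn => ?_
      have hn0 : (0 : ℝ) < n := by exact_mod_cast hn.2
      rw [div_le_iff₀ hn0]
      have h1 := Real.log_le_log (hP n) ((Pd_le_Mx le_rfl).trans hn.1)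
      rwa [Real.log_exp] at h1
  · refine ereal_limsup (u := fun n : ℕ => Real.log (Pd d c₀ n) / n) (fun t ht => ?_) fun t ht => ?_
    · obtain ⟨β, h1, h2⟩ := exists_between ht
      obtain ⟨C, hC, h3⟩ := hg.up β h1
      filter_upwards [eventually_ge_atTop 1, log_div_ev C (show 0 < t - β by linarith)]
        with n hn1 hn2
      have hn0 : (0 : ℝ) < n := by exact_mod_cast hn1
      rw [div_le_iff₀ hn0]
      have h4 := Real.log_le_log (hP n) ((Pd_le_Mx le_rfl).trans (h3 n))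
      rw [Real.log_mul (by linarith) (Real.exp_pos _).ne', Real.log_exp] at h4
      linarith
    · obtain ⟨α, h1, h2⟩ := exists_between ht
      obtain ⟨C, -, h3⟩ := key t α h1
      refine ((hg.lowf α h2).and_eventually h3).mono fun n hn => ?_
      refine hn.2 1 le_rfl ?_ (by rw [one_mul]; exact hn.1)
      rw [Real.log_one]
      have : 0 < α - t := by linarith
      positivity

theorem tendsto_iff_ereal {α : Type*} {F : Filter α} [NeBot F] {u : α → ℝ} {a b : ℝ}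
    (h1 : liminf (fun x => (u x : EReal)) F = a) (h2 : limsup (fun x => (u x : EReal)) F = b) :
    (∃ t : ℝ, Tendsto u F (𝓝 t)) ↔ a = b := by
  constructor
  · rintro ⟨t, ht⟩
    have h3 : Tendsto (fun x => (u x : EReal)) F (𝓝 (t : EReal)) := EReal.tendsto_coe.2 ht
    have h4 := h3.liminf_eq
    have h5 := h3.limsup_eq
    rw [h1] at h4
    rw [h2] at h5
    have h6 : a = t := by exact_mod_cast h4
    have h7 : b = t := by exact_mod_cast h5
    rw [h6, h7]
  · rintro rfl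
    exact ⟨a, EReal.tendsto_coe.1 (tendsto_of_liminf_eq_limsup h1 h2)⟩

end Pool.Agent.K6.H77.LD
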