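import Pool.Agent.K6.H77.LD.Core

/-! # Collet-Eckmann parameters with slow recurrence: the harmonic measure (helper77) -/

set_option autoImplicit false

namespace Pool.Agent.K6.H77.LD

open Complex Metric Set Filter Topology MeasureTheory Pool.Agent.H713R2
open N62a1eb23 Pool.Agent.Y298.CA Pool.Agent.Y298.SH.CD
open Pool.Agent.H712R2 (P)
open Pool.Agent.Y736.HG (vol_le le_vol le_sup ae_land)
open Pool.Agent.Y736.HD (Ang vol_Ang_ne ev_small ev_lt ev_pos GS)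

variable {d : ℕ} {C₁ lam : ℝ} {c₀ : ℂ} {ψ : ℂ → ℂ}

theorem sup_le {r S : ℝ} (h : UB d c₀ r S) (hS : 0 ≤ S) (hψ : IsExteriorMap (multibrotSet d) ψ) :
    sSup (GS ψ c₀ r) ≤ S := by
  apply Real.sSup_le _ hS
  rintro x ⟨w, hw, hwr, rfl⟩
  exact h ψ hψ w hw hwr

theorem bdd_of_UB {r S : ℝ} (h : UB d c₀ r S) (hψ : IsExteriorMap (multibrotSet d) ψ) :
    BddAbove (GS ψ c₀ r) := by
  refine ⟨S, ?_⟩
  rintro x ⟨w, hw, hwr, rfl⟩
  exact h ψ hψ w hw hwr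

theorem le_sup_of_LB (hd2 : 2 ≤ d) (hM : c₀ ∈ multibrotSet d)
    (hψ : IsExteriorMap (multibrotSet d) ψ) {r t : ℝ} (hr : 0 < r) (hb : BddAbove (GS ψ c₀ r))
    (h : LB d c₀ r t) : t ≤ sSup (GS ψ c₀ r) := by
  obtain ⟨m, h1, h2⟩ := h
  exact h2.trans (le_sup hd2 hM hψ hr hb h1)

/-- from the escape rate to the harmonic measure, upper bound -/
theorem vol_up_pt (hd2 : 2 ≤ d) (hM : c₀ ∈ multibrotSet d) (hψ : IsExteriorMap (multibrotSet d) ψ)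
    {κ ε : ℝ} (hκ : 0 < κ - ε) (hε : 0 < ε) :
    ∀ᶠ s : ℝ in 𝓝[>] 0, UB d c₀ s (s ^ κ) → (volume (Ang ψ c₀ (s / 2))).toReal ≤
      (s / 2) ^ (κ - ε) := by
  have hlog22 : 0 < Real.log 2 := Real.log_pos (by norm_num)
  have hpi := Real.pi_pos
  obtain ⟨B, hB⟩ : ∃ B, B = 2 * Real.pi / Real.log 2 * 2 ^ (κ - ε) := ⟨_, rfl⟩
  filter_upwards [ev_pos, ev_small (C := B) hε] with s hs0 hs1 h
  have h1 := vol_le hd2 hψ hM (r := s / 2) (by positivity) (S := s ^ κ) (by positivity)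
    (fun w hw hwr => h ψ hψ w hw (by
      rw [mul_div_cancel₀ _ (two_ne_zero' ℝ)] at hwr
      exact hwr))
  refine h1.trans ?_
  have h2 : (s / 2) ^ (κ - ε) * 2 ^ (κ - ε) = s ^ (κ - ε) := by
    rw [← Real.mul_rpow (by positivity) (by norm_num), div_mul_cancel₀ _ (two_ne_zero' ℝ)]
  have h3 : 0 < (2 : ℝ) ^ (κ - ε) := by positivity
  refine le_of_mul_le_mul_right ?_ h3
  rw [h2]
  calc 2 * Real.pi * s ^ κ / Real.log 2 * 2 ^ (κ - ε) = (B * s ^ ε) * s ^ (κ - ε) := by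
        rw [hB, mul_assoc _ (s ^ ε), ← Real.rpow_add hs0, add_sub_cancel]
        ring
    _ ≤ 1 * s ^ (κ - ε) := by gcongr
    _ = _ := one_mul _

/-- from the escape rate to the harmonic measure, lower bound -/
theorem vol_low_pt (hd2 : 2 ≤ d) (hM : c₀ ∈ multibrotSet d) (hψ : IsExteriorMap (multibrotSet d) ψ)
    {K s₀ κ₂ : ℝ} (hK : 0 < K) (hs₀ : 0 < s₀) (hκ₂ : 0 < κ₂)
    (HU : ∀ s : ℝ, 0 < s → s ≤ s₀ → UB d c₀ s (K * s ^ κ₂)) {κ₁ ε : ℝ} (hκ₁ : 0 < κ₁)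
    (hε : 0 < ε) : ∀ᶠ ρ : ℝ in 𝓝[>] 0, LB d c₀ ρ (ρ ^ κ₁) →
      (2 * ρ) ^ (κ₁ + ε) ≤ (volume (Ang ψ c₀ (2 * ρ))).toReal := by
  have hpi := Real.pi_pos
  obtain ⟨η, hη⟩ : ∃ η, η = (κ₁ + 1) / κ₂ := ⟨_, rfl⟩
  have hη0 : 0 < η := by rw [hη]; positivity
  have hηκ : (1 + η) * κ₂ = (κ₂ + 1) + κ₁ := by
    rw [hη]
    field_simp
    ring
  obtain ⟨B, hB⟩ : ∃ B, B = 2 ^ (κ₁ + ε) * (η * (2 / ε) / Real.pi) := ⟨_, rfl⟩
  have hB0 : 0 < B := by rw [hB]; positivity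
  filter_upwards [ev_pos, ev_lt one_pos, ev_lt hs₀,
    ev_small (C := 2 * K) (show 0 < κ₂ + 1 by linarith),
    ev_small (C := B) (show 0 < ε / 2 by linarith)] with ρ hρ0 hρ1 hρ2 hρ3 hρ4 hLB
  obtain ⟨m, hd, hT⟩ := hLB
  have hρ'0 : 0 < ρ ^ (1 + η) := by positivity
  have hρ'ρ : ρ ^ (1 + η) < ρ := by
    calc ρ ^ (1 + η) < ρ ^ (1 : ℝ) := Real.rpow_lt_rpow_of_exponent_gt hρ0 hρ1 (by linarith)
      _ = ρ := Real.rpow_one ρ
  have h1 := le_vol hd2 hψ (ae_land hd2 hψ) hM hρ'0 hρ'ρ (show ρ < 2 * ρ by linarith)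
    (S := K * (ρ ^ (1 + η)) ^ κ₂)
    (by positivity) (fun w hw hwr => HU _ hρ'0 (by linarith) ψ hψ w hw hwr) hd
  have h2 : K * (ρ ^ (1 + η)) ^ κ₂ ≤ 1 / 2 * ρ ^ κ₁ := by
    rw [← Real.rpow_mul hρ0.le, hηκ, Real.rpow_add hρ0]
    calc K * (ρ ^ (κ₂ + 1) * ρ ^ κ₁) = 1 / 2 * ((2 * K * ρ ^ (κ₂ + 1)) * ρ ^ κ₁) := by ring
      _ ≤ 1 / 2 * (1 * ρ ^ κ₁) := by gcongr
      _ = _ := by rw [one_mul]
  have h3 : Real.log (ρ / ρ ^ (1 + η)) = η * Real.log (1 / ρ) := by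
    rw [Real.log_div hρ0.ne' hρ'0.ne', Real.log_rpow hρ0, one_div, Real.log_inv]
    ring
  have h4 : Real.log (1 / ρ) ≤ 2 / ε * (1 / ρ) ^ (ε / 2) := by
    have := Real.log_le_rpow_div (x := 1 / ρ) (by positivity) (show 0 < ε / 2 by linarith)
    refine this.trans (le_of_eq ?_)
    field_simp
  obtain ⟨V, hV⟩ : ∃ V, V = (volume (Ang ψ c₀ (2 * ρ))).toReal := ⟨_, rfl⟩
  have hV0 : 0 ≤ V := by rw [hV]; exact ENNReal.toReal_nonneg
  rw [← hV, h3] at h1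
  rw [← hV]
  have h5 : 1 / 2 * ρ ^ κ₁ ≤ η * (2 / ε * (1 / ρ) ^ (ε / 2)) * V / (2 * Real.pi) := by
    have h6 : 1 / 2 * ρ ^ κ₁ ≤ η * Real.log (1 / ρ) * V / (2 * Real.pi) := by linarith
    refine h6.trans ?_
    gcongr
  rw [le_div_iff₀ (by positivity)] at h5
  have hρe : 0 < ρ ^ (ε / 2) := Real.rpow_pos_of_pos hρ0 _
  have h7 : (1 / ρ) ^ (ε / 2) = (ρ ^ (ε / 2))⁻¹ := by
    rw [one_div, Real.inv_rpow hρ0.le]
  rw [h7] at h5
  have h8 : ρ ^ (κ₁ + ε / 2) ≤ η * (2 / ε) / Real.pi * V := by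
    rw [div_mul_eq_mul_div, le_div_iff₀ hpi, Real.rpow_add hρ0]
    calc ρ ^ κ₁ * ρ ^ (ε / 2) * Real.pi = (1 / 2 * ρ ^ κ₁ * (2 * Real.pi)) * ρ ^ (ε / 2) := by ring
      _ ≤ (η * (2 / ε * (ρ ^ (ε / 2))⁻¹) * V) * ρ ^ (ε / 2) := by gcongr
      _ = η * (2 / ε) * V := by field_simp
  calc (2 * ρ) ^ (κ₁ + ε) = 2 ^ (κ₁ + ε) * (ρ ^ (ε / 2) * ρ ^ (κ₁ + ε / 2)) := by
        rw [← Real.rpow_add hρ0, Real.mul_rpow (by norm_num) hρ0.le]
        congr 2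
        ring
    _ ≤ 2 ^ (κ₁ + ε) * (ρ ^ (ε / 2) * (η * (2 / ε) / Real.pi * V)) := by gcongr
    _ = (B * ρ ^ (ε / 2)) * V := by rw [hB]; ring
    _ ≤ 1 * V := by gcongr
    _ = V := one_mul V

theorem tendsto_two_mul : Tendsto (fun ρ : ℝ => 2 * ρ) (𝓝[>] 0) (𝓝[>] 0) := by
  rw [tendsto_nhdsWithin_iff]
  refine ⟨?_, ?_⟩
  · have h1 : Continuous fun ρ : ℝ => 2 * ρ := by fun_prop
    have h2 := (h1.tendsto 0).mono_left (nhdsWithin_le_nhds (s := Ioi (0 : ℝ)))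
    rwa [mul_zero] at h2
  · filter_upwards [ev_pos] with ρ hρ
    show 0 < 2 * ρ
    linarith

theorem tendsto_half : Tendsto (fun ρ : ℝ => ρ / 2) (𝓝[>] 0) (𝓝[>] 0) := by
  rw [tendsto_nhdsWithin_iff]
  refine ⟨?_, ?_⟩
  · have h1 : Continuous fun ρ : ℝ => ρ / 2 := by fun_prop
    have h2 := (h1.tendsto 0).mono_left (nhdsWithin_le_nhds (s := Ioi (0 : ℝ)))
    rwa [zero_div] at h2
  · filter_upwards [ev_pos] with ρ hρ
    show 0 < ρ / 2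
    linarith

/-- The four kinds of bounds for a function `F` of the radius. -/
structure Bounds (F : ℝ → ℝ) (A₁ A₂ : ℝ) : Prop where
  up : ∀ κ : ℝ, 0 < κ → κ < A₁ → ∀ᶠ r : ℝ in 𝓝[>] 0, F r ≤ r ^ κ
  upf : ∀ κ : ℝ, 0 < κ → κ < A₂ → ∃ᶠ r : ℝ in 𝓝[>] 0, F r ≤ r ^ κ
  low : ∀ κ : ℝ, A₂ < κ → ∀ᶠ r : ℝ in 𝓝[>] 0, r ^ κ ≤ F r
  lowf : ∀ κ : ℝ, A₁ < κ → ∃ᶠ r : ℝ in 𝓝[>] 0, r ^ κ ≤ F r

/-- The hypotheses on the growth of the derivatives. -/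
structure Grows (d : ℕ) (c₀ : ℂ) (a b : ℝ) : Prop where
  pos : 0 < a
  le : a ≤ b
  up : ∀ β : ℝ, b < β → ∃ C : ℝ, 1 ≤ C ∧ ∀ n : ℕ, Mx d c₀ n ≤ C * Real.exp (β * n)
  upf : ∀ β : ℝ, a < β → ∃ᶠ n : ℕ in atTop, Mx d c₀ n ≤ Real.exp (β * n)
  low : ∀ α : ℝ, α < a → ∃ C : ℝ, 1 ≤ C ∧ ∀ n : ℕ, Real.exp (α * n) ≤ C * Mx d c₀ n
  lowf : ∀ α : ℝ, α < b → ∃ᶠ n : ℕ in atTop, Real.exp (α * n) ≤ Mx d c₀ n

theorem Grows.posb {a b : ℝ} (h : Grows d c₀ a b) : 0 < b := h.pos.trans_le h.le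

section four

variable {a b : ℝ}

theorem UB_all (hd2 : 2 ≤ d) (hM : c₀ ∈ multibrotSet d) (hc : CEp d C₁ lam c₀) (hs : Slow d c₀)
    (hg : Grows d c₀ a b) {κ : ℝ} (hκ0 : 0 < κ) (hκ : κ < Real.log d / b) :
    ∃ K s₀ : ℝ, 0 < K ∧ 0 < s₀ ∧ ∀ s : ℝ, 0 < s → s ≤ s₀ → UB d c₀ s (K * s ^ κ) := by
  have hlog2 : 0 < Real.log d := Real.log_pos (by exact_mod_cast (by omega : 1 < d))
  obtain ⟨β, hβ1, hβ2⟩ : ∃ β, b < β ∧ κ < Real.log d / β := by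
    have hb := hg.posb
    have h1 : b < Real.log d / κ := by
      rw [lt_div_iff₀ hκ0]
      rw [lt_div_iff₀ hb] at hκ
      linarith
    obtain ⟨β, h2, h3⟩ := exists_between h1
    refine ⟨β, h2, ?_⟩
    rw [lt_div_iff₀ (hb.trans h2)]
    rw [lt_div_iff₀ hκ0] at h3
    linarith
  obtain ⟨C, hC, h⟩ := hg.up β hβ1
  exact up_all hd2 hM hc hs (hg.posb.trans hβ1) hC h hκ0 hβ2

theorem UB_ev (hd2 : 2 ≤ d) (hM : c₀ ∈ multibrotSet d) (hc : CEp d C₁ lam c₀) (hs : Slow d c₀)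
    (hg : Grows d c₀ a b) {κ : ℝ} (hκ0 : 0 < κ) (hκ : κ < Real.log d / b) :
    ∀ᶠ s : ℝ in 𝓝[>] 0, UB d c₀ s (s ^ κ) := by
  obtain ⟨κ', h1, h2⟩ := exists_between hκ
  obtain ⟨K, s₀, hK, hs₀, h⟩ := UB_all hd2 hM hc hs hg (hκ0.trans h1) h2
  filter_upwards [ev_pos, ev_lt hs₀, ev_small (C := K) (sub_pos.2 h1)] with s hs0 hs1 hs2
  refine (h s hs0 hs1.le).mono ?_
  calc K * s ^ κ' = (K * s ^ (κ' - κ)) * s ^ κ := by
        rw [mul_assoc, ← Real.rpow_add hs0, sub_add_cancel]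
    _ ≤ 1 * s ^ κ := by gcongr
    _ = _ := one_mul _

theorem UB_fr (hd2 : 2 ≤ d) (hM : c₀ ∈ multibrotSet d) (hc : CEp d C₁ lam c₀) (hs : Slow d c₀)
    (hg : Grows d c₀ a b) {κ : ℝ} (hκ0 : 0 < κ) (hκ : κ < Real.log d / a) :
    ∃ᶠ s : ℝ in 𝓝[>] 0, UB d c₀ s (s ^ κ) := by
  have hlog2 : 0 < Real.log d := Real.log_pos (by exact_mod_cast (by omega : 1 < d))
  have ha := hg.pos
  have h1 : a < Real.log d / κ := by
    rw [lt_div_iff₀ hκ0]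
    rw [lt_div_iff₀ ha] at hκ
    linarith
  obtain ⟨β, h2, h3⟩ := exists_between h1
  refine up_freq hd2 hM hc hs (ha.trans h2) (hg.upf β h2) hκ0 ?_
  rw [lt_div_iff₀ (ha.trans h2)]
  rw [lt_div_iff₀ hκ0] at h3
  linarith

theorem LB_ev (hd2 : 2 ≤ d) (hc : CEp d C₁ lam c₀) (hg : Grows d c₀ a b) {κ : ℝ}
    (hκ : Real.log d / a < κ) : ∀ᶠ s : ℝ in 𝓝[>] 0, LB d c₀ s (s ^ κ) := by
  have hlog2 : 0 < Real.log d := Real.log_pos (by exact_mod_cast (by omega : 1 < d))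
  have ha := hg.pos
  have hκ0 : 0 < κ := lt_trans (by positivity) hκ
  obtain ⟨κ', h1, h2⟩ := exists_between hκ
  have hκ'0 : 0 < κ' := lt_trans (by positivity) h1
  have h3 : Real.log d / κ' < a := by
    rw [div_lt_iff₀ hκ'0]
    rw [div_lt_iff₀ ha] at h1
    linarith
  obtain ⟨C, hC, h⟩ := hg.low _ h3
  obtain ⟨k, ρ₀, hk, hρ₀, h4⟩ := low_all hd2 hc (by positivity) hC h
  have e : Real.log d / (Real.log d / κ') = κ' := by field_simp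
  rw [e] at h4
  filter_upwards [ev_pos, ev_lt hρ₀, ev_small (C := 1 / k) (sub_pos.2 h2)] with s hs0 hs1 hs2
  refine (h4 s hs0 hs1.le).mono ?_
  calc s ^ κ = (1 / k * s ^ (κ - κ')) * (k * s ^ κ') := by
        have e2 : κ = (κ - κ') + κ' := by ring
        conv_lhs => rw [e2, Real.rpow_add hs0]
        field_simp
    _ ≤ 1 * (k * s ^ κ') := by gcongr
    _ = _ := one_mul _

theorem LB_fr (hd2 : 2 ≤ d) (hc : CEp d C₁ lam c₀) (hg : Grows d c₀ a b) {κ : ℝ}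
    (hκ : Real.log d / b < κ) : ∃ᶠ s : ℝ in 𝓝[>] 0, LB d c₀ s (s ^ κ) := by
  have hlog2 : 0 < Real.log d := Real.log_pos (by exact_mod_cast (by omega : 1 < d))
  have hb := hg.posb
  have hκ0 : 0 < κ := lt_trans (by positivity) hκ
  have h1 : Real.log d / κ < b := by
    rw [div_lt_iff₀ hκ0]
    rw [div_lt_iff₀ hb] at hκ
    linarith
  obtain ⟨α, h2, h3⟩ := exists_between h1
  have hα0 : 0 < α := lt_trans (by positivity) h2
  refine low_freq hd2 hc hα0 (hg.lowf α h3) ?_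
  rw [div_lt_iff₀ hα0]
  rw [div_lt_iff₀ hκ0] at h2
  linarith

/-- **The exponents of the escape rate.** -/
theorem sup_bounds (hd2 : 2 ≤ d) (hM : c₀ ∈ multibrotSet d) (hc : CEp d C₁ lam c₀)
    (hs : Slow d c₀) (hg : Grows d c₀ a b) (hψ : IsExteriorMap (multibrotSet d) ψ) :
    Bounds (fun r => sSup (GS ψ c₀ r)) (Real.log d / b) (Real.log d / a) := by
  have hlog2 : 0 < Real.log d := Real.log_pos (by exact_mod_cast (by omega : 1 < d))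
  have ha := hg.pos
  have hb := hg.posb
  have hbd : ∀ᶠ r : ℝ in 𝓝[>] 0, BddAbove (GS ψ c₀ r) := by
    obtain ⟨κ, h1, h2⟩ := exists_between (show 0 < Real.log d / b by positivity)
    filter_upwards [UB_ev hd2 hM hc hs hg h1 h2] with r hr
    exact bdd_of_UB hr hψ
  refine ⟨fun κ hκ0 hκ => ?_, fun κ hκ0 hκ => ?_, fun κ hκ => ?_, fun κ hκ => ?_⟩
  · filter_upwards [UB_ev hd2 hM hc hs hg hκ0 hκ, ev_pos] with r hr hr0
    exact sup_le hr (by positivity) hψ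
  · refine ((UB_fr hd2 hM hc hs hg hκ0 hκ).and_eventually ev_pos).mono fun r hr => ?_
    have hr0 := hr.2
    exact sup_le hr.1 (by positivity) hψ
  · filter_upwards [LB_ev hd2 hc hg hκ, ev_pos, hbd] with r hr hr0 hrb
    exact le_sup_of_LB hd2 hM hψ hr0 hrb hr
  · refine ((LB_fr hd2 hc hg hκ).and_eventually (ev_pos.and hbd)).mono fun r hr => ?_
    exact le_sup_of_LB hd2 hM hψ hr.2.1 hr.2.2 hr.1

/-- **The exponents of the harmonic measure.** -/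
theorem vol_bounds (hd2 : 2 ≤ d) (hM : c₀ ∈ multibrotSet d) (hc : CEp d C₁ lam c₀)
    (hs : Slow d c₀) (hg : Grows d c₀ a b) (hψ : IsExteriorMap (multibrotSet d) ψ) :
    Bounds (fun r => (volume (Ang ψ c₀ r)).toReal) (Real.log d / b) (Real.log d / a) := by
  have hlog2 : 0 < Real.log d := Real.log_pos (by exact_mod_cast (by omega : 1 < d))
  have ha := hg.pos
  have hb := hg.posb
  obtain ⟨κ₂, hκ₂, hκ₂'⟩ := exists_between (show 0 < Real.log d / b by positivity)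
  obtain ⟨K, s₀, hK, hs₀, HU⟩ := UB_all hd2 hM hc hs hg hκ₂ hκ₂'
  refine ⟨fun κ hκ0 hκ => ?_, fun κ hκ0 hκ => ?_, fun κ hκ => ?_, fun κ hκ => ?_⟩
  · obtain ⟨κ', h1, h2⟩ := exists_between hκ
    have h3 := vol_up_pt hd2 hM hψ (κ := κ') (ε := κ' - κ) (by linarith) (by linarith)
    have h4 := tendsto_two_mul.eventually (h3.and (UB_ev hd2 hM hc hs hg (hκ0.trans h1) h2))
    filter_upwards [h4] with r hr
    have h5 := hr.1 hr.2
    have e1 : 2 * r / 2 = r := by ring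
    have e2 : κ' - (κ' - κ) = κ := by ring
    rw [e1, e2] at h5
    exact h5
  · obtain ⟨κ', h1, h2⟩ := exists_between hκ
    have h3 := vol_up_pt hd2 hM hψ (κ := κ') (ε := κ' - κ) (by linarith) (by linarith)
    have e2 : κ' - (κ' - κ) = κ := by ring
    rw [e2] at h3
    refine tendsto_half.frequently (((UB_fr hd2 hM hc hs hg (hκ0.trans h1) h2).and_eventually
      h3).mono fun s hs => hs.2 hs.1)
  · obtain ⟨κ', h1, h2⟩ := exists_between hκ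
    have hκ'0 : 0 < κ' := lt_trans (by positivity) h1
    have h3 := vol_low_pt hd2 hM hψ hK hs₀ hκ₂ HU hκ'0 (ε := κ - κ') (by linarith)
    have h4 := tendsto_half.eventually (h3.and (LB_ev hd2 hc hg h1))
    filter_upwards [h4] with r hr
    have h5 := hr.1 hr.2
    have e1 : 2 * (r / 2) = r := by ring
    have e2 : κ' + (κ - κ') = κ := by ring
    rw [e1, e2] at h5
    exact h5
  · obtain ⟨κ', h1, h2⟩ := exists_between hκ
    have hκ'0 : 0 < κ' := lt_trans (by positivity) h1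
    have h3 := vol_low_pt hd2 hM hψ hK hs₀ hκ₂ HU hκ'0 (ε := κ - κ') (by linarith)
    have e2 : κ' + (κ - κ') = κ := by ring
    rw [e2] at h3
    refine tendsto_two_mul.frequently (((LB_fr hd2 hc hg h1).and_eventually
      h3).mono fun s hs => hs.2 hs.1)

end four

end Pool.Agent.K6.H77.LD
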